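import Pool.Agent.Lib.MP_cb27ba_nt.CO.Spec
import Pool.Agent.Lib.MP_cb27ba_nt.RU.FOUR4
import Pool.Agent.Lib.MP_cb27ba_nt.PH.EN2

section
/-!
# MP_cb27ba_nt, corollaries: common lemmas
-/
set_option autoImplicit false

namespace MPcb27.CO

open Finset
open MPcb27.TU

/-- the bound `t #A` for the norm gives `t #A ^ 2` for the sum -/
lemma sum_of_NB {p : ℕ} {χ : MulChar (ZMod p) ℂ} {A : Finset (ZMod p)} {M : ℝ}
    (h : NB χ A A M) : ‖∑ a ∈ A, ∑ b ∈ A, χ (a - b)‖ ≤ M * #A := by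
  have h1 := h (fun _ => 1) (fun _ => 1)
  simp only [one_mul, norm_one, one_pow, sum_const, nsmul_eq_mul, mul_one] at h1
  rwa [Real.mul_self_sqrt (Nat.cast_nonneg _)] at h1

/-- the trivial bound -/
lemma norm_sum_le' {p : ℕ} [Fact p.Prime] (χ : MulChar (ZMod p) ℂ) (X Y : Finset (ZMod p)) :
    ‖∑ a ∈ X, ∑ b ∈ Y, χ (a - b)‖ ≤ (#X : ℝ) * #Y := by
  calc ‖∑ a ∈ X, ∑ b ∈ Y, χ (a - b)‖ ≤ ∑ _a ∈ X, ∑ _b ∈ Y, (1 : ℝ) := by
        refine (norm_sum_le _ _).trans (sum_le_sum fun a _ => (norm_sum_le _ _).trans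
          (sum_le_sum fun b _ => ?_))
        exact DirichletCharacter.norm_le_one χ _
    _ = (#X : ℝ) * #Y := by simp

/-- a small part of `A` is harmless -/
lemma sum_split {p : ℕ} [Fact p.Prime] (χ : MulChar (ZMod p) ℂ) {A A' : Finset (ZMod p)}
    (h : A' ⊆ A) : ‖∑ a ∈ A, ∑ b ∈ A, χ (a - b)‖ ≤
      ‖∑ a ∈ A', ∑ b ∈ A', χ (a - b)‖ + 2 * (#(A \ A') : ℝ) * #A := by
  have e1 : ∑ a ∈ A, ∑ b ∈ A, χ (a - b) = ∑ a ∈ A', ∑ b ∈ A', χ (a - b) +
      ∑ a ∈ A', ∑ b ∈ A \ A', χ (a - b) + ∑ a ∈ A \ A', ∑ b ∈ A, χ (a - b) := by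
    rw [← sum_sdiff h (f := fun a => ∑ b ∈ A, χ (a - b))]
    have e2 : ∑ a ∈ A', ∑ b ∈ A, χ (a - b) = ∑ a ∈ A', ∑ b ∈ A', χ (a - b) +
        ∑ a ∈ A', ∑ b ∈ A \ A', χ (a - b) := by
      rw [← sum_add_distrib]
      refine sum_congr rfl fun a _ => ?_
      rw [← sum_sdiff h (f := fun b => χ (a - b)), add_comm]
    rw [e2]
    ring
  rw [e1]
  have h1 := norm_sum_le' χ A' (A \ A')
  have h2 := norm_sum_le' χ (A \ A') A
  have h3 : (#A' : ℝ) ≤ #A := by exact_mod_cast card_le_card h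
  have h4 : (0 : ℝ) ≤ #(A \ A') := Nat.cast_nonneg _
  have h5 : (#A' : ℝ) * #(A \ A') ≤ #(A \ A') * #A := by nlinarith
  calc _ ≤ ‖∑ a ∈ A', ∑ b ∈ A', χ (a - b) + ∑ a ∈ A', ∑ b ∈ A \ A', χ (a - b)‖ +
        ‖∑ a ∈ A \ A', ∑ b ∈ A, χ (a - b)‖ := norm_add_le _ _
    _ ≤ (‖∑ a ∈ A', ∑ b ∈ A', χ (a - b)‖ + ‖∑ a ∈ A', ∑ b ∈ A \ A', χ (a - b)‖) +
        ‖∑ a ∈ A \ A', ∑ b ∈ A, χ (a - b)‖ := by gcongr; exact norm_add_le _ _
    _ ≤ _ := by linarith

/-- the bound `p ^ (-t) #A ^ 2` with `τ < t` gives the inequality of Q1 -/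
lemma q1_of_le {p : ℕ} [Fact p.Prime] {χ : MulChar (ZMod p) ℂ} {A : Finset (ZMod p)} {t τ : ℝ}
    (hA : A.Nonempty) (hτ : 0 < τ) (ht : τ < t)
    (h : ‖∑ a ∈ A, ∑ b ∈ A, χ (a - b)‖ ≤ (p : ℝ) ^ (-t) * (#A : ℝ) ^ 2) :
    ‖∑ a ∈ A, ∑ b ∈ A, χ (a - b)‖ < (#A : ℝ) ^ (2 - τ) := by
  have hp : (1 : ℝ) < p := by exact_mod_cast (Fact.out : p.Prime).one_lt
  have hA0 : (0 : ℝ) < #A := by exact_mod_cast hA.card_pos
  have hAp : (#A : ℝ) ≤ p := by
    have := card_le_univ A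
    rw [ZMod.card] at this
    exact_mod_cast this
  have h1 : (p : ℝ) ^ (-t) < (#A : ℝ) ^ (-τ) := by
    calc (p : ℝ) ^ (-t) < (p : ℝ) ^ (-τ) := Real.rpow_lt_rpow_of_exponent_lt hp (by linarith)
      _ ≤ (#A : ℝ) ^ (-τ) := Real.rpow_le_rpow_of_nonpos hA0 hAp (by linarith)
  refine h.trans_lt ?_
  rw [show (2 : ℝ) - τ = -τ + 2 by ring, Real.rpow_add hA0]
  norm_num
  exact mul_lt_mul_of_pos_right h1 (by positivity)

/-- from a norm bound `p ^ (-t₁) (S #A) ^ (1/2)`, `S ≤ p ^ σ #A` -/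
lemma q1_of_NB {p : ℕ} [Fact p.Prime] {χ : MulChar (ZMod p) ℂ} {A : Finset (ZMod p)}
    {t₁ σ τ S : ℝ} (hA : A.Nonempty) (hτ : 0 < τ) (ht : τ + σ / 2 < t₁)
    (hS : S ≤ (p : ℝ) ^ σ * #A) (h : NB χ A A ((p : ℝ) ^ (-t₁) * Real.sqrt (S * #A))) :
    ‖∑ a ∈ A, ∑ b ∈ A, χ (a - b)‖ < (#A : ℝ) ^ (2 - τ) := by
  have hp : (1 : ℝ) < p := by exact_mod_cast (Fact.out : p.Prime).one_lt
  have hp0 : (0 : ℝ) < p := by linarith
  refine q1_of_le (t := t₁ - σ / 2) hA hτ (by linarith) ((sum_of_NB h).trans ?_)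
  have h1 : Real.sqrt (S * #A) ≤ (p : ℝ) ^ (σ / 2) * #A := by
    rw [Real.sqrt_le_left (by positivity)]
    rw [mul_pow, ← Real.rpow_natCast ((p : ℝ) ^ (σ / 2)), ← Real.rpow_mul hp0.le]
    push_cast
    rw [div_mul_cancel₀ _ (two_ne_zero)]
    calc S * #A ≤ ((p : ℝ) ^ σ * #A) * #A := by gcongr
      _ = _ := by ring
  calc (p : ℝ) ^ (-t₁) * Real.sqrt (S * #A) * #A ≤
        (p : ℝ) ^ (-t₁) * ((p : ℝ) ^ (σ / 2) * #A) * #A := by gcongr
    _ = (p : ℝ) ^ (-(t₁ - σ / 2)) * (#A : ℝ) ^ 2 := by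
        rw [show -(t₁ - σ / 2) = -t₁ + σ / 2 by ring, Real.rpow_add hp0]
        ring

end MPcb27.CO
end

section
/-!
# MP_cb27ba_nt, corollaries: AC1 (differences in a subgroup)
-/
set_option autoImplicit false

namespace MPcb27.CO

open Finset
open MPcb27.TU

open scoped Classical in
/-- the characters which are trivial on `H` -/
noncomputable def triv {p : ℕ} [Fact p.Prime] (H : Subgroup (ZMod p)ˣ) :
    Finset (DirichletCharacter ℂ p) :=
  Finset.univ.filter fun χ => ∀ h ∈ H, χ (h : ZMod p) = 1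

lemma mem_triv {p : ℕ} [Fact p.Prime] {H : Subgroup (ZMod p)ˣ} {χ : DirichletCharacter ℂ p} :
    χ ∈ triv H ↔ ∀ h ∈ H, χ (h : ZMod p) = 1 := by
  simp [triv]

/-- there are at least `H.index` of them -/
lemma index_le_triv {p : ℕ} [Fact p.Prime] (H : Subgroup (ZMod p)ˣ) : H.index ≤ #(triv H) := by
  have h0 : Nat.card ((ZMod p)ˣ ⧸ H →* ℂˣ) = H.index :=
    CommGroup.card_monoidHom_of_hasEnoughRootsOfUnity ((ZMod p)ˣ ⧸ H) ℂ
  have : Finite ((ZMod p)ˣ ⧸ H →* ℂˣ) := by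
    refine Nat.finite_of_card_ne_zero ?_
    rw [h0]
    exact H.index_ne_zero_of_finite
  let _ : Fintype ((ZMod p)ˣ ⧸ H →* ℂˣ) := Fintype.ofFinite _
  rw [← h0, Nat.card_eq_fintype_card, ← Finset.card_univ]
  refine Finset.card_le_card_of_injOn
    (fun φ => MulChar.equivToUnitHom.symm (φ.comp (QuotientGroup.mk' H))) ?_ ?_
  · intro φ _
    rw [Finset.mem_coe, mem_triv]
    intro h hh
    have h1 := MulChar.coe_equivToUnitHom
      (MulChar.equivToUnitHom.symm (φ.comp (QuotientGroup.mk' H))) h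
    rw [Equiv.apply_symm_apply] at h1
    rw [← h1]
    have h2 : (QuotientGroup.mk' H) h = 1 := by
      rw [QuotientGroup.mk'_apply, QuotientGroup.eq_one_iff]
      exact hh
    rw [MonoidHom.comp_apply, h2, map_one, Units.val_one]
  · intro φ _ ψ _ h
    have h1 := MulChar.equivToUnitHom.symm.injective h
    ext x
    rw [h1]

/-- the sum of these characters at `x` is a real number, non-negative, and at least `#(triv H)` if
`x` is in `H` -/
lemma sum_triv {p : ℕ} [Fact p.Prime] (H : Subgroup (ZMod p)ˣ) (x : ZMod p) :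
    0 ≤ (∑ χ ∈ triv H, χ x).re ∧
      ((∃ h ∈ H, (h : ZMod p) = x) → (∑ χ ∈ triv H, χ x).re = #(triv H)) := by
  have h1 : (∀ χ ∈ triv H, χ x = 1) → ∑ χ ∈ triv H, χ x = (#(triv H) : ℂ) := by
    intro h
    rw [sum_congr rfl h]
    simp
  refine ⟨?_, ?_⟩
  · by_cases h : ∀ χ ∈ triv H, χ x = 1
    · rw [h1 h, Complex.natCast_re]
      exact Nat.cast_nonneg _
    · push Not at h
      obtain ⟨χ₀, hχ₀, hx⟩ := h
      have h2 : ∑ χ ∈ triv H, (χ₀ * χ) x = ∑ χ ∈ triv H, χ x := by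
        refine Finset.sum_bij' (fun χ _ => χ₀ * χ) (fun χ _ => χ₀⁻¹ * χ) ?_ ?_ ?_ ?_ ?_
        · intro χ hχ
          rw [mem_triv] at hχ hχ₀ ⊢
          intro h hh
          rw [MulChar.mul_apply, hχ h hh, hχ₀ h hh, one_mul]
        · intro χ hχ
          rw [mem_triv] at hχ hχ₀ ⊢
          intro h hh
          rw [MulChar.mul_apply, hχ h hh, MulChar.inv_apply', mul_one]
          have h3 := hχ₀ h⁻¹ (H.inv_mem hh)
          rwa [Units.val_inv_eq_inv_val] at h3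
        · intro χ _
          simp
        · intro χ _
          simp
        · intro χ _
          rfl
      have h3 : χ₀ x * ∑ χ ∈ triv H, χ x = ∑ χ ∈ triv H, χ x := by
        refine Eq.trans ?_ h2
        rw [mul_sum]
        exact sum_congr rfl fun χ _ => (MulChar.mul_apply _ _ _).symm
      have h4 : (χ₀ x - 1) * ∑ χ ∈ triv H, χ x = 0 := by
        rw [sub_mul, h3, one_mul, sub_self]
      have h5 : ∑ χ ∈ triv H, χ x = 0 := by
        rcases mul_eq_zero.1 h4 with h | h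
        · exact absurd (sub_eq_zero.1 h) hx
        · exact h
      rw [h5, Complex.zero_re]
  · rintro ⟨h, hh, rfl⟩
    rw [h1 fun χ hχ => mem_triv.1 hχ h hh, Complex.natCast_re]

open scoped Classical in
/-- the sum over all characters trivial on `H` -/
lemma triv_count {p : ℕ} [Fact p.Prime] (H : Subgroup (ZMod p)ˣ) (A : Finset (ZMod p)) :
    (#(triv H) : ℝ) * #((A ×ˢ A).filter fun x => ∃ h ∈ H, (h : ZMod p) = x.1 - x.2) ≤
      ∑ χ ∈ triv H, ‖∑ a ∈ A, ∑ b ∈ A, χ (a - b)‖ := by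
  have h1 : ∑ χ ∈ triv H, ∑ a ∈ A, ∑ b ∈ A, χ (a - b) =
      ∑ x ∈ A ×ˢ A, ∑ χ ∈ triv H, χ (x.1 - x.2) := by
    rw [sum_comm, sum_product]
    refine sum_congr rfl fun a _ => ?_
    rw [sum_comm]
  calc (#(triv H) : ℝ) * #((A ×ˢ A).filter fun x => ∃ h ∈ H, (h : ZMod p) = x.1 - x.2)
      = ∑ x ∈ (A ×ˢ A).filter (fun x => ∃ h ∈ H, (h : ZMod p) = x.1 - x.2),
          (∑ χ ∈ triv H, χ (x.1 - x.2)).re := by
        rw [sum_congr rfl fun x hx => (sum_triv H (x.1 - x.2)).2 (mem_filter.1 hx).2]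
        rw [sum_const, nsmul_eq_mul, mul_comm]
    _ ≤ ∑ x ∈ A ×ˢ A, (∑ χ ∈ triv H, χ (x.1 - x.2)).re :=
        sum_le_sum_of_subset_of_nonneg (filter_subset _ _) fun x _ _ => (sum_triv H _).1
    _ = (∑ χ ∈ triv H, ∑ a ∈ A, ∑ b ∈ A, χ (a - b)).re := by rw [h1, Complex.re_sum]
    _ ≤ ‖∑ χ ∈ triv H, ∑ a ∈ A, ∑ b ∈ A, χ (a - b)‖ := Complex.re_le_norm _
    _ ≤ ∑ χ ∈ triv H, ‖∑ a ∈ A, ∑ b ∈ A, χ (a - b)‖ := norm_sum_le _ _

open scoped Classical in
/-- AC1 -/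
theorem specAC1 (hO : RU2.FinalOP4) : SpecAC1 := by
  intro ε hε
  obtain ⟨τ₁, hτ₁, P₁, hP₁⟩ := RU2.q1form hO (ε / 4) (ε / 4) (by linarith) (by linarith)
  set τ : ℝ := min (ε / 4 * τ₁ / 2) (ε / 8) with hτ
  have hτ0 : 0 < τ := lt_min (by positivity) (by linarith)
  have hτ1 : τ ≤ ε / 4 * τ₁ / 2 := min_le_left _ _
  have hτ2 : τ ≤ ε / 8 := min_le_right _ _
  have hl1 : ∀ᶠ x : ℝ in Filter.atTop, 2 ≤ x ^ τ :=
    (tendsto_rpow_atTop hτ0).eventually_ge_atTop 2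
  obtain ⟨X0, hX0⟩ := Filter.eventually_atTop.1 hl1
  refine ⟨τ, hτ0, max P₁ (⌈X0⌉₊ + 2), ?_⟩
  intro p _ hp A H hH hA
  have hp1 : (1 : ℝ) < p := by exact_mod_cast (Fact.out : p.Prime).one_lt
  have hp0 : (0 : ℝ) < p := by linarith
  have hpX : X0 ≤ p := by
    have h1 : ((⌈X0⌉₊ + 2 : ℕ) : ℝ) ≤ p := by
      exact_mod_cast (le_max_right _ _).trans hp
    have h2 := Nat.le_ceil X0
    push_cast at h1
    linarith
  have h2τ : 2 ≤ (p : ℝ) ^ τ := hX0 p hpX
  have hpτ : 0 < (p : ℝ) ^ τ := Real.rpow_pos_of_pos hp0 _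
  by_contra hcon
  push Not at hcon
  have hHc : 1 ≤ (Nat.card H : ℝ) := by
    have : 0 < Nat.card H := Nat.card_pos
    exact_mod_cast this
  have hpε : 0 < (p : ℝ) ^ ε := Real.rpow_pos_of_pos hp0 _
  have hA2 : (p : ℝ) ^ ε < (#A : ℝ) ^ 2 := by
    refine lt_of_le_of_lt ?_ hcon
    nlinarith
  have hA0 : (0 : ℝ) < #A := by
    rcases (Nat.cast_nonneg (#A) : (0 : ℝ) ≤ #A).eq_or_lt with h | h
    · rw [← h] at hA2
      norm_num at hA2
      linarith
    · exact h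
  have hAd : (p : ℝ) ^ (ε / 4) < #A := by
    have h1 : (p : ℝ) ^ (ε / 2) < #A := by
      refine lt_of_pow_lt_pow_left₀ 2 hA0.le ?_
      rw [← Real.rpow_natCast ((p : ℝ) ^ (ε / 2)), ← Real.rpow_mul hp0.le]
      rw [show ε / 2 * ((2 : ℕ) : ℝ) = ε by push_cast; ring]
      exact hA2
    exact lt_of_le_of_lt (Real.rpow_le_rpow_of_exponent_le hp1.le (by linarith)) h1
  obtain ⟨E, hE1, hE2⟩ := hP₁ p ((le_max_left _ _).trans hp) A hAd
  set N : ℝ := (#((A ×ˢ A).filter fun x => ∃ h ∈ H, (h : ZMod p) = x.1 - x.2) : ℝ) with hN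
  set T : ℝ := (#(triv H) : ℝ) with hT
  set Q : ℝ := (#A : ℝ) ^ 2 with hQ
  have hQ0 : 0 < Q := by positivity
  -- the sums outside `E`
  have hS : ∀ χ ∉ E, ‖∑ a ∈ A, ∑ b ∈ A, χ (a - b)‖ ≤ (p : ℝ) ^ (-(2 * τ)) * Q := by
    intro χ hχ
    have h1 := hE2 χ hχ A Subset.rfl (by
      calc (#A : ℝ) ^ (1 - τ₁) ≤ (#A : ℝ) ^ (1 : ℝ) := by
            refine Real.rpow_le_rpow_of_exponent_le ?_ (by linarith)
            have : 1 ≤ #A := by exact_mod_cast hA0
            exact_mod_cast this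
        _ = #A := Real.rpow_one _)
    refine h1.le.trans ?_
    rw [show (2 : ℝ) - τ₁ = -τ₁ + 2 by ring, Real.rpow_add hA0, hQ]
    have h2 : (#A : ℝ) ^ (2 : ℝ) = (#A : ℝ) ^ 2 := by norm_num
    rw [h2]
    refine mul_le_mul_of_nonneg_right ?_ (by positivity)
    calc (#A : ℝ) ^ (-τ₁) ≤ ((p : ℝ) ^ (ε / 4)) ^ (-τ₁) :=
          Real.rpow_le_rpow_of_nonpos (Real.rpow_pos_of_pos hp0 _) hAd.le (by linarith)
      _ = (p : ℝ) ^ (ε / 4 * -τ₁) := by rw [← Real.rpow_mul hp0.le]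
      _ ≤ (p : ℝ) ^ (-(2 * τ)) := Real.rpow_le_rpow_of_exponent_le hp1.le (by nlinarith)
  have hS' : ∀ χ : DirichletCharacter ℂ p, ‖∑ a ∈ A, ∑ b ∈ A, χ (a - b)‖ ≤ Q := by
    intro χ
    rw [hQ, pow_two]
    exact norm_sum_le' χ A A
  have h1 : T * N ≤ T * ((p : ℝ) ^ (-(2 * τ)) * Q) + #E * Q := by
    refine (triv_count H A).trans ?_
    calc ∑ χ ∈ triv H, ‖∑ a ∈ A, ∑ b ∈ A, χ (a - b)‖
        ≤ ∑ χ ∈ triv H, ((p : ℝ) ^ (-(2 * τ)) * Q + if χ ∈ E then Q else 0) := by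
          refine sum_le_sum fun χ _ => ?_
          split_ifs with h
          · have := hS' χ
            have h0 : 0 ≤ (p : ℝ) ^ (-(2 * τ)) * Q :=
              mul_nonneg (Real.rpow_pos_of_pos hp0 _).le hQ0.le
            linarith
          · have := hS χ h
            linarith
      _ = T * ((p : ℝ) ^ (-(2 * τ)) * Q) + ∑ χ ∈ triv H, (if χ ∈ E then Q else 0) := by
          rw [sum_add_distrib, sum_const, nsmul_eq_mul]
      _ ≤ _ := by
          gcongr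
          rw [← sum_filter, sum_const, nsmul_eq_mul]
          refine mul_le_mul_of_nonneg_right ?_ hQ0.le
          have : #({χ ∈ triv H | χ ∈ E}) ≤ #E := card_le_card fun χ hχ => (mem_filter.1 hχ).2
          exact_mod_cast this
  have hT0 : 0 ≤ T := Nat.cast_nonneg _
  have hTi : (H.index : ℝ) ≤ T := Nat.cast_le.2 (index_le_triv H)
  -- lower bound for the number of exceptional characters
  have h2 : T ≤ 2 * (p : ℝ) ^ τ * #E := by
    have e1 : (p : ℝ) ^ (-(2 * τ)) * ((p : ℝ) ^ τ * (p : ℝ) ^ τ) = 1 := by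
      rw [← Real.rpow_add hp0, ← Real.rpow_add hp0, show -(2 * τ) + (τ + τ) = 0 by ring,
        Real.rpow_zero]
    have e2 : T * Q ≤ (p : ℝ) ^ τ * (T * N) := by
      have := mul_le_mul_of_nonneg_left hA hT0
      linarith
    have e3 : (p : ℝ) ^ τ * (T * ((p : ℝ) ^ (-(2 * τ)) * Q)) ≤ T * Q / 2 := by
      have h3 : (p : ℝ) ^ τ * (p : ℝ) ^ (-(2 * τ)) ≤ 1 / 2 := by
        rw [← Real.rpow_add hp0, show τ + -(2 * τ) = -τ by ring, Real.rpow_neg hp0.le]
        rw [inv_le_comm₀ hpτ (by norm_num)]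
        norm_num
        exact h2τ
      calc (p : ℝ) ^ τ * (T * ((p : ℝ) ^ (-(2 * τ)) * Q))
          = (T * Q) * ((p : ℝ) ^ τ * (p : ℝ) ^ (-(2 * τ))) := by ring
        _ ≤ (T * Q) * (1 / 2) := mul_le_mul_of_nonneg_left h3 (by positivity)
        _ = _ := by ring
    have e4 : T * Q ≤ T * Q / 2 + (p : ℝ) ^ τ * (#E * Q) := by
      have := mul_le_mul_of_nonneg_left h1 hpτ.le
      rw [mul_add] at this
      linarith
    have e5 : T * Q ≤ (2 * (p : ℝ) ^ τ * #E) * Q := by linarith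
    exact le_of_mul_le_mul_right e5 hQ0
  have h3 : T ≤ (p : ℝ) ^ (ε / 2) * max 1 ((p : ℝ) / Q) := by
    have hm : (0 : ℝ) < max 1 ((p : ℝ) / Q) := lt_of_lt_of_le one_pos (le_max_left _ _)
    calc T ≤ 2 * (p : ℝ) ^ τ * #E := h2
      _ ≤ (p : ℝ) ^ τ * (p : ℝ) ^ τ * ((p : ℝ) ^ (ε / 4) * max 1 ((p : ℝ) / Q)) := by
          gcongr
      _ = (p : ℝ) ^ (τ + τ + ε / 4) * max 1 ((p : ℝ) / Q) := by
          rw [Real.rpow_add hp0, Real.rpow_add hp0]
          ring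
      _ ≤ _ := by
          refine mul_le_mul_of_nonneg_right ?_ hm.le
          exact Real.rpow_le_rpow_of_exponent_le hp1.le (by linarith)
  have h4 : 2 < (p : ℝ) ^ (ε / 2) := by
    calc (2 : ℝ) ≤ (p : ℝ) ^ τ := h2τ
      _ < (p : ℝ) ^ (ε / 2) := Real.rpow_lt_rpow_of_exponent_lt hp1 (by linarith)
  have h5 : (p : ℝ) ^ ε = (p : ℝ) ^ (ε / 2) * (p : ℝ) ^ (ε / 2) := by
    rw [← Real.rpow_add hp0]
    congr 1
    ring
  have hc0 : 0 < (p : ℝ) ^ (ε / 2) := Real.rpow_pos_of_pos hp0 _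
  rcases le_or_gt ((p : ℝ) / Q) 1 with h | h
  · rw [max_eq_left h, mul_one] at h3
    nlinarith
  · rw [max_eq_right h.le] at h3
    have hcard : (Nat.card H : ℝ) * H.index = p - 1 := by
      have h6 := H.card_mul_index
      rw [Nat.card_eq_fintype_card (α := (ZMod p)ˣ), ZMod.card_units_eq_totient,
        Nat.totient_prime Fact.out] at h6
      have h7 : ((Nat.card H * H.index : ℕ) : ℝ) = ((p - 1 : ℕ) : ℝ) := by rw [h6]
      rw [Nat.cast_mul, Nat.cast_sub (Fact.out : p.Prime).one_le] at h7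
      simpa using h7
    have hi0 : 0 < (H.index : ℝ) := lt_of_lt_of_le hpε hH
    have h8 : (H.index : ℝ) * Q ≤ (p : ℝ) ^ (ε / 2) * p := by
      have := mul_le_mul_of_nonneg_right (hTi.trans h3) hQ0.le
      rwa [mul_assoc, div_mul_cancel₀ _ hQ0.ne'] at this
    have h9 : (p : ℝ) ^ ε * ((Nat.card H : ℝ) * H.index) < (p : ℝ) ^ (ε / 2) * p := by
      refine lt_of_lt_of_le ?_ h8
      have := mul_lt_mul_of_pos_right hcon hi0
      linarith
    rw [hcard, h5] at h9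
    have hp2 : (2 : ℝ) ≤ p := by exact_mod_cast (Fact.out : p.Prime).two_le
    have h10 : (p : ℝ) ^ (ε / 2) * (p - 1) < p := by
      have : (p : ℝ) ^ (ε / 2) * ((p : ℝ) ^ (ε / 2) * (p - 1)) < (p : ℝ) ^ (ε / 2) * p := by
        linarith
      exact lt_of_mul_lt_mul_left this hc0.le
    nlinarith

end MPcb27.CO
end

section
/-!
# MP_cb27ba_nt, corollaries of theorem UK (sets of small doubling)
-/
set_option autoImplicit false

namespace MPcb27.CO

open Finset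
open scoped Pointwise
open MPcb27.TU

/-- `X` has more than `p ^ (1/4 + δ)` elements and doubling at most `K` -/
def Sd {p : ℕ} (K δ : ℝ) (X : Finset (ZMod p)) : Prop :=
  (p : ℝ) ^ (1 / 4 + δ) < (#X : ℝ) ∧ (#(X + X) : ℝ) ≤ K * #X

/-- theorem UK for `A = B`, in the form used here -/
lemma uk_sum (h : FinalUK) (K δ : ℝ) (hδ : 0 < δ) : ∃ τ : ℝ, 0 < τ ∧ ∃ P : ℕ,
    ∀ (p : ℕ) [Fact p.Prime], P ≤ p → ∀ (A : Finset (ZMod p)) (F : Finset (Finset (ZMod p))),
      (∀ X ∈ F, Sd K δ X) → A ⊆ F.biUnion id → ∀ χ : MulChar (ZMod p) ℂ, χ ≠ 1 →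
        ‖∑ a ∈ A, ∑ b ∈ A, χ (a - b)‖ ≤ (p : ℝ) ^ (-τ) * (∑ X ∈ F, (#X : ℝ)) * #A := by
  obtain ⟨τ, hτ, P, hP⟩ := h K δ hδ
  refine ⟨τ, hτ, P, ?_⟩
  intro p _ hp A F hF hA χ hχ
  have h1 := hP p hp F F (fun X hX => hF X (by simpa using hX)) A A hA hA χ hχ
  rw [Real.sqrt_mul_self (by positivity)] at h1
  exact sum_of_NB h1

/-- a set of doubling at most `K` has `K ≥ 1` -/
lemma one_le_of_sd {p : ℕ} {K δ : ℝ} {X : Finset (ZMod p)} (h : Sd K δ X) :
    0 < (#X : ℝ) ∧ 1 ≤ K := by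
  have h0 : (0 : ℝ) < #X := lt_of_le_of_lt (by positivity) h.1
  have hX : X.Nonempty := by
    rw [← card_pos]
    exact_mod_cast h0
  have h1 : (#X : ℝ) ≤ #(X + X) := by exact_mod_cast card_le_card_add_left hX
  refine ⟨h0, ?_⟩
  have h2 := h1.trans h.2
  by_contra hK
  push Not at hK
  nlinarith

/-- Q1 for a larger exponent gives Q1 for a smaller one -/
lemma q1_mono {p : ℕ} [Fact p.Prime] {A : Finset (ZMod p)} {τ τ' : ℝ} (hA : A.Nonempty)
    (h : τ' ≤ τ) (hq : Q1At A τ) : Q1At A τ' := by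
  intro χ hχ
  refine (hq χ hχ).trans_le (Real.rpow_le_rpow_of_exponent_le ?_ (by linarith))
  exact_mod_cast hA.card_pos

/-- DU1 -/
theorem specDU1 (h : FinalUK) : SpecDU1 := by
  intro K δ hδ
  obtain ⟨t, ht, P, hP⟩ := uk_sum h K δ hδ
  refine ⟨t / 3, by positivity, P, ?_⟩
  intro p _ hp A F hA hF hAF hS χ hχ
  have hp0 : (0 : ℝ) < p := by exact_mod_cast (Fact.out : p.Prime).pos
  refine q1_of_le (t := 2 * t / 3) hA (by positivity) (by linarith) ?_
  calc _ ≤ (p : ℝ) ^ (-t) * (∑ X ∈ F, (#X : ℝ)) * #A := hP p hp A F hF hAF χ hχ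
    _ ≤ (p : ℝ) ^ (-t) * ((p : ℝ) ^ (t / 3) * #A) * #A := by gcongr
    _ = (p : ℝ) ^ (-(2 * t / 3)) * (#A : ℝ) ^ 2 := by
        rw [show -(2 * t / 3) = -t + t / 3 by ring, Real.rpow_add hp0]
        ring

/-- Plünnecke's inequality in real numbers -/
lemma pr_real {p : ℕ} {K : ℝ} {X : Finset (ZMod p)} (hX : X.Nonempty)
    (h : (#(X + X) : ℝ) ≤ K * #X) (m n : ℕ) : (#(m • X - n • X) : ℝ) ≤ K ^ (m + n) * #X := by
  have h1 := pluennecke_ruzsa_inequality_nsmul_sub_nsmul_add hX X m n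
  have h2 : (#(m • X - n • X) : ℝ) ≤ ((#(X + X) : ℝ) / #X) ^ (m + n) * #X := by
    have h3 := (NNRat.cast_le (K := ℝ)).2 h1
    push_cast at h3
    exact h3
  have h0 : (0 : ℝ) < #X := by exact_mod_cast hX.card_pos
  refine h2.trans ?_
  gcongr
  rwa [div_le_iff₀ h0]

/-- the translates of `X - X` -/
lemma sd_translate {p : ℕ} {K δ : ℝ} {X : Finset (ZMod p)} (h : Sd K δ X) (t : ZMod p) :
    Sd (K ^ 4) δ ({t} + (X - X)) ∧ (#({t} + (X - X)) : ℝ) ≤ K ^ 2 * #X := by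
  obtain ⟨h0, hK⟩ := one_le_of_sd h
  have hX : X.Nonempty := by
    rw [← card_pos]
    exact_mod_cast h0
  have e1 : #({t} + (X - X)) = #(X - X) := card_singleton_add _ _
  have h1 : (#X : ℝ) ≤ #(X - X) := by exact_mod_cast card_le_card_sub_left hX
  have h2 := pr_real hX h.2 1 1
  have h4 := pr_real hX h.2 2 2
  simp only [one_nsmul, two_nsmul] at h2 h4
  refine ⟨⟨?_, ?_⟩, ?_⟩
  · rw [e1]
    exact h.1.trans_le h1
  · have e2 : ({t} + (X - X)) + ({t} + (X - X)) = {t + t} + ((X + X) - (X + X)) := by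
      rw [add_add_add_comm, singleton_add_singleton, sub_add_sub_comm]
    rw [e2, card_singleton_add, e1]
    refine h4.trans ?_
    gcongr
  · rw [e1]
    exact h2

/-- DU2 -/
theorem specDU2 (h : FinalUK) : SpecDU2 := by
  intro K δ hδ
  obtain ⟨t, ht, P, hP⟩ := uk_sum h (K ^ 4) δ hδ
  obtain ⟨P', hP'⟩ := exists_nat_ge ((K ^ 2) ^ (1 / (t / 4)))
  refine ⟨t / 8, by positivity, max P P', ?_⟩
  intro p _ hp A X hA hX1 hX2 hAX B hBA hB χ hχ
  have hp1 : (1 : ℝ) < p := by exact_mod_cast (Fact.out : p.Prime).one_lt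
  have hp0 : (0 : ℝ) < p := by linarith
  have hsd : Sd K δ X := ⟨hX1, hX2⟩
  obtain ⟨h0, hK⟩ := one_le_of_sd hsd
  have hXne : X.Nonempty := by
    rw [← card_pos]
    exact_mod_cast h0
  have hKp : K ^ 2 ≤ (p : ℝ) ^ (t / 4) := by
    have h1 : (K ^ 2) ^ (1 / (t / 4)) ≤ (p : ℝ) :=
      hP'.trans (by exact_mod_cast (le_max_right _ _).trans hp)
    have h2 : ((K ^ 2) ^ (1 / (t / 4))) ^ (t / 4) ≤ (p : ℝ) ^ (t / 4) :=
      Real.rpow_le_rpow (by positivity) h1 (by positivity)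
    rwa [← Real.rpow_mul (by positivity), one_div_mul_cancel (by positivity),
      Real.rpow_one] at h2
  have hA0 : (0 : ℝ) < #A := by exact_mod_cast hA.card_pos
  have hBne : B.Nonempty := by
    rw [← card_pos, Nat.pos_iff_ne_zero]
    intro hb
    rw [hb] at hB
    simp only [Nat.cast_zero, mul_zero] at hB
    linarith
  obtain ⟨T, hTA, hT1, hT2⟩ := ruzsa_covering_add (K := (#(A + X) : ℝ) / #X) (A := A) hXne
    (by rw [div_mul_cancel₀ _ h0.ne'])
  classical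
  set F : Finset (Finset (ZMod p)) := T.image fun t => {t} + (X - X) with hF
  have hFs : ∑ Y ∈ F, (#Y : ℝ) ≤ (p : ℝ) ^ (t / 2) * #B := by
    have h1 : ∑ Y ∈ F, (#Y : ℝ) ≤ #F • (K ^ 2 * (#X : ℝ)) := by
      refine sum_le_card_nsmul _ _ _ ?_
      intro Y hY
      obtain ⟨t', _, rfl⟩ := mem_image.1 hY
      exact (sd_translate hsd t').2
    have h2 : (#F : ℝ) ≤ (#(A + X) : ℝ) / #X := by
      refine le_trans ?_ hT1
      exact_mod_cast card_image_le
    rw [nsmul_eq_mul] at h1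
    calc _ ≤ (#F : ℝ) * (K ^ 2 * #X) := h1
      _ ≤ ((#(A + X) : ℝ) / #X) * (K ^ 2 * #X) := by gcongr
      _ = K ^ 2 * #(A + X) := by field_simp
      _ ≤ (p : ℝ) ^ (t / 4) * ((p : ℝ) ^ (t / 8) * ((p : ℝ) ^ (t / 8) * #B)) := by
          gcongr
          refine hAX.trans ?_
          gcongr
      _ = (p : ℝ) ^ (t / 2) * #B := by
          rw [show t / 2 = t / 4 + (t / 8 + t / 8) by ring, Real.rpow_add hp0, Real.rpow_add hp0]
          ring
  have hBF : B ⊆ F.biUnion id := by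
    intro b hb
    obtain ⟨t', ht', y, hy, rfl⟩ := mem_add.1 (hT2 (hBA hb))
    exact mem_biUnion.2 ⟨{t'} + (X - X), mem_image_of_mem _ ht',
      add_mem_add (mem_singleton_self _) hy⟩
  refine q1_of_le (t := t / 2) hBne (by positivity) (by linarith) ?_
  calc _ ≤ (p : ℝ) ^ (-t) * (∑ Y ∈ F, (#Y : ℝ)) * #B :=
        hP p ((le_max_left _ _).trans hp) B F (fun Y hY => by
          obtain ⟨t', _, rfl⟩ := mem_image.1 hY
          exact (sd_translate hsd t').1) hBF χ hχ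
    _ ≤ (p : ℝ) ^ (-t) * ((p : ℝ) ^ (t / 2) * #B) * #B := by gcongr
    _ = (p : ℝ) ^ (-(t / 2)) * (#B : ℝ) ^ 2 := by
        rw [show -(t / 2) = -t + t / 2 by ring, Real.rpow_add hp0]
        ring

/-- a maximal disjoint family of good subsets -/
lemma exists_family {p : ℕ} (K δ : ℝ) (A : Finset (ZMod p)) :
    ∃ F : Finset (Finset (ZMod p)), (∀ X ∈ F, Sd K δ X) ∧ (∀ X ∈ F, X ⊆ A) ∧
      ∑ X ∈ F, (#X : ℝ) = #(F.biUnion id) ∧ ∀ X ⊆ A \ F.biUnion id, ¬ Sd K δ X := by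
  classical
  set S : Finset (Finset (Finset (ZMod p))) := A.powerset.powerset.filter fun F =>
    (∀ X ∈ F, Sd K δ X) ∧ (F : Set (Finset (ZMod p))).PairwiseDisjoint id with hS
  have hSne : S.Nonempty := ⟨∅, by simp [hS]⟩
  obtain ⟨F, hF, hmax⟩ := exists_max_image S card hSne
  rw [hS, mem_filter, mem_powerset] at hF
  obtain ⟨hFA, hFs, hFd⟩ := hF
  refine ⟨F, hFs, fun X hX => mem_powerset.1 (hFA hX), ?_, ?_⟩
  · rw [card_biUnion hFd]
    push_cast
    rfl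
  · intro X hX hXs
    have h0 := (one_le_of_sd hXs).1
    have hXne : X.Nonempty := by
      rw [← card_pos]
      exact_mod_cast h0
    have hd : ∀ Y ∈ F, Disjoint X Y := by
      intro Y hY
      rw [disjoint_left]
      intro x hx hy
      exact (mem_sdiff.1 (hX hx)).2 (mem_biUnion.2 ⟨Y, hY, hy⟩)
    have hXF : X ∉ F := by
      intro hXF
      exact hXne.ne_empty (disjoint_self.1 (hd X hXF))
    have h1 := hmax (insert X F) (by
      rw [hS, mem_filter, mem_powerset]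
      refine ⟨?_, ?_, ?_⟩
      · rw [insert_subset_iff]
        exact ⟨mem_powerset.2 (hX.trans sdiff_subset), hFA⟩
      · intro Y hY
        rcases mem_insert.1 hY with rfl | hY
        · exact hXs
        · exact hFs Y hY
      · rw [coe_insert]
        exact hFd.insert fun Y hY _ => hd Y hY)
    rw [card_insert_of_notMem hXF] at h1
    omega

/-- DU3 -/
theorem specDU3 (h : FinalUK) : SpecDU3 := by
  intro K δ hδ σ hσ
  obtain ⟨t, ht, P, hP⟩ := uk_sum h K δ hδ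
  set m : ℝ := min t σ with hm
  have hm0 : 0 < m := lt_min ht hσ
  obtain ⟨P', hP'⟩ := exists_nat_ge ((3 : ℝ) ^ (1 / (m / 2)))
  refine ⟨m / 4, by positivity, max P P', ?_⟩
  intro p _ hp A hA hq
  have hp1 : (1 : ℝ) < p := by exact_mod_cast (Fact.out : p.Prime).one_lt
  have hp0 : (0 : ℝ) < p := by linarith
  have h3 : (3 : ℝ) ≤ (p : ℝ) ^ (m / 2) := by
    have h1 : (3 : ℝ) ^ (1 / (m / 2)) ≤ (p : ℝ) :=
      hP'.trans (by exact_mod_cast (le_max_right _ _).trans hp)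
    have h2 : ((3 : ℝ) ^ (1 / (m / 2))) ^ (m / 2) ≤ (p : ℝ) ^ (m / 2) :=
      Real.rpow_le_rpow (by positivity) h1 (by positivity)
    rwa [← Real.rpow_mul (by positivity), one_div_mul_cancel (by positivity),
      Real.rpow_one] at h2
  obtain ⟨F, hF1, hF2, hF3, hF4⟩ := exists_family K δ A
  set U := F.biUnion id with hU
  have hUA : U ⊆ A := by
    intro x hx
    obtain ⟨Y, hY, hxY⟩ := mem_biUnion.1 hx
    exact hF2 Y hY hxY
  refine ⟨A \ U, sdiff_subset, ?_, ?_⟩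
  · by_contra hlt
    push Not at hlt
    refine hq ?_
    intro χ hχ
    have hA0 : (0 : ℝ) < #A := by exact_mod_cast hA.card_pos
    have hUc : (#U : ℝ) ≤ #A := by exact_mod_cast card_le_card hUA
    have h4 : (#(A \ U) : ℝ) ≤ (p : ℝ) ^ (-σ) * #A := by
      rw [Real.rpow_neg hp0.le]
      rw [inv_mul_eq_div, le_div_iff₀ (by positivity), mul_comm]
      exact hlt.le
    refine q1_of_le (t := m / 2) hA (by positivity) (by linarith) ?_
    calc _ ≤ ‖∑ a ∈ U, ∑ b ∈ U, χ (a - b)‖ + 2 * (#(A \ U) : ℝ) * #A := sum_split χ hUA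
      _ ≤ (p : ℝ) ^ (-t) * #U * #U + 2 * ((p : ℝ) ^ (-σ) * #A) * #A := by
          have h5 := hP p ((le_max_left _ _).trans hp) U F hF1 subset_rfl χ hχ
          rw [hF3] at h5
          gcongr
      _ ≤ (p : ℝ) ^ (-m) * #A * #A + 2 * ((p : ℝ) ^ (-m) * #A) * #A := by
          have h6 : (p : ℝ) ^ (-t) ≤ (p : ℝ) ^ (-m) :=
            Real.rpow_le_rpow_of_exponent_le hp1.le (by linarith [min_le_left t σ])
          have h7 : (p : ℝ) ^ (-σ) ≤ (p : ℝ) ^ (-m) :=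
            Real.rpow_le_rpow_of_exponent_le hp1.le (by linarith [min_le_right t σ])
          gcongr
      _ = 3 * (p : ℝ) ^ (-m) * (#A : ℝ) ^ 2 := by ring
      _ ≤ (p : ℝ) ^ (m / 2) * (p : ℝ) ^ (-m) * (#A : ℝ) ^ 2 := by gcongr
      _ = (p : ℝ) ^ (-(m / 2)) * (#A : ℝ) ^ 2 := by
          rw [← Real.rpow_add hp0]
          congr 2
          ring
  · intro X hX hXs
    by_contra hlt
    push Not at hlt
    exact hF4 X hX ⟨hXs, hlt⟩

end MPcb27.CO
end

section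
/-!
# MP_cb27ba_nt, corollaries of the energy criterion (`PH.theoremEN2`)
-/
set_option autoImplicit false

namespace MPcb27.CO

open Finset Matrix
open scoped Pointwise
open MPcb27.TU

namespace EC

variable {p : ℕ} [Fact p.Prime]

/-- the sum of the squares of the numbers of representations is at most the energy -/
lemma sum_sq_le (A D : Finset (ZMod p)) (e : ZMod p) :
    ∑ d ∈ D, #(univ.filter fun z : ZMod p => z + d ∈ A ∧ z + e ∈ A) ^ 2 ≤ A.addEnergy A := by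
  classical
  set N : ZMod p → Finset (ZMod p) :=
    fun d => univ.filter fun z : ZMod p => z + d ∈ A ∧ z + e ∈ A with hN
  have h1 : ∑ d ∈ D, #(N d) ^ 2 = #(D.sigma fun d => N d ×ˢ N d) := by
    rw [card_sigma]
    refine sum_congr rfl fun d _ => ?_
    rw [card_product, sq]
  rw [h1, addEnergy]
  refine card_le_card_of_injOn
    (fun x => ((x.2.1 + x.1, x.2.1 + e), (x.2.2 + e, x.2.2 + x.1))) ?_ ?_
  · rintro ⟨d, z, w⟩ hx
    simp only [coe_sigma, Set.mem_sigma_iff, mem_coe, mem_product, hN, mem_filter, mem_univ,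
      true_and] at hx
    rw [mem_coe, mem_filter, mem_product, mem_product, mem_product]
    exact ⟨⟨⟨hx.2.1.1, hx.2.1.2⟩, hx.2.2.2, hx.2.2.1⟩, by ring⟩
  · rintro ⟨d, z, w⟩ _ ⟨d', z', w'⟩ _ h
    simp only [Prod.mk.injEq] at h
    obtain ⟨⟨h1, h2⟩, h3, h4⟩ := h
    have hz := add_right_cancel h2
    have hw := add_right_cancel h3
    subst hz
    subst hw
    have hd := add_left_cancel h1
    subst hd
    rfl

lemma energy_le (A : Finset (ZMod p)) : A.addEnergy A ≤ #A ^ 3 := by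
  classical
  have h1 : #A ^ 3 = #((A ×ˢ A) ×ˢ A) := by
    rw [card_product, card_product]
    ring
  rw [h1, addEnergy]
  refine card_le_card_of_injOn (fun x => (x.1, x.2.1)) ?_ ?_
  · rintro ⟨⟨a, b⟩, c, d⟩ hx
    rw [mem_coe, mem_filter, mem_product, mem_product, mem_product] at hx
    exact mem_coe.2 (mem_product.2 ⟨mem_product.2 hx.1.1, hx.1.2.1⟩)
  · rintro ⟨⟨a, b⟩, c, d⟩ hx ⟨⟨a', b'⟩, c', d'⟩ hx' h
    rw [mem_coe, mem_filter] at hx hx'
    simp only [Prod.mk.injEq] at h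
    obtain ⟨⟨h1, h2⟩, h3⟩ := h
    subst h1 h2 h3
    have h4 : d = d' := add_left_cancel (hx.2.symm.trans hx'.2)
    rw [h4]

/-- the translation by `d` -/
def tr (d : ZMod p) : Matrix (Fin 2) (Fin 2) (ZMod p) := !![1, d; 0, 1]

lemma tr_inj : Function.Injective (tr : ZMod p → Matrix (Fin 2) (Fin 2) (ZMod p)) := by
  intro d d' h
  have := congrFun (congrFun h 0) 1
  simpa [tr] using this

lemma tr_den (d z : ZMod p) : MB.den (tr d) z ≠ 0 := by
  simp [MB.den, tr]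

lemma tr_mob (d z : ZMod p) : MB.mob (tr d) z = z + d := by
  simp [MB.mob, tr]

lemma tr_det (d : ZMod p) : (tr d).det ≠ 0 := by
  simp [tr]

lemma nam_tr (A D : Finset (ZMod p)) : PG.NAM (D.image tr) A ≤ #D * A.addEnergy A := by
  classical
  rw [PG.NAM, sum_comm, sum_image tr_inj.injOn, ← smul_eq_mul, ← sum_const]
  refine sum_le_sum fun e _ => ?_
  rw [sum_image tr_inj.injOn]
  refine le_trans (le_of_eq ?_) (sum_sq_le A D e)
  refine sum_congr rfl fun d _ => ?_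
  congr 2
  ext z
  simp only [mem_filter, mem_univ, true_and, tr_mob]
  exact ⟨fun h => ⟨h.2.1, h.2.2.2⟩, fun h => ⟨tr_den d z, h.1, tr_den e z, h.2⟩⟩

end EC

open EC

theorem specEN2 : SpecEN2 := by
  classical
  intro δ hδ
  obtain ⟨τ, hτ, P, hP⟩ := PH.theoremEN2 δ hδ
  refine ⟨τ, hτ, P, ?_⟩
  intro p _ hp A D C m K hA hC hm hK hE hrep χ hχ
  have h := hP p hp A {(D.image tr, C, m)} hA (by
    intro q hq
    rw [mem_singleton] at hq
    subst hq
    refine ⟨?_, hC, hm, K, hK, ?_⟩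
    · intro φ hφ
      obtain ⟨d, _, rfl⟩ := mem_image.1 hφ
      exact tr_det d
    · dsimp only
      rw [card_image_of_injective _ tr_inj]
      have h1 : (PG.NAM (D.image tr) A : ℝ) ≤ #D * A.addEnergy A := by exact_mod_cast nam_tr A D
      have hD0 : (0 : ℝ) ≤ #D := Nat.cast_nonneg _
      calc (p : ℝ) ^ (1 + δ) * PG.NAM (D.image tr) A ≤
            (p : ℝ) ^ (1 + δ) * (#D * A.addEnergy A) := by gcongr
        _ = #D * ((p : ℝ) ^ (1 + δ) * A.addEnergy A) := by ring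
        _ ≤ #D * (K * #D * (#A : ℝ) ^ 4) := by gcongr
        _ = _ := by ring) A (by
    intro a ha
    refine ⟨_, mem_singleton_self _, ?_⟩
    dsimp only
    refine (hrep a ha).trans ?_
    refine card_le_card_of_injOn (fun x => (tr x.1, x.2)) ?_ ?_
    · rintro ⟨d, c⟩ hx
      rw [mem_coe, mem_filter, mem_product] at hx
      rw [mem_coe, mem_filter, mem_product]
      refine ⟨⟨mem_image_of_mem _ hx.1.1, hx.1.2⟩, tr_den _ _, ?_⟩
      rw [tr_mob, ← hx.2, add_comm]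
    · rintro ⟨d, c⟩ _ ⟨d', c'⟩ _ h
      simp only [Prod.mk.injEq] at h
      rw [tr_inj h.1, h.2]) χ hχ
  rw [sum_singleton] at h
  dsimp only at h
  rw [card_image_of_injective _ tr_inj] at h
  exact h

namespace EC

/-- for large `p`: the energy is at least `#A ^ 2`, so `#A` is large -/
lemma card_large {p : ℕ} [Fact p.Prime] {A : Finset (ZMod p)} {x : ℝ} (hA : A.Nonempty)
    (hE : x * A.addEnergy A ≤ (#A : ℝ) ^ 5) (hx : 0 ≤ x) : x ≤ (#A : ℝ) ^ 3 := by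
  have hA0 : (0 : ℝ) < #A := by exact_mod_cast hA.card_pos
  have h1 : (#A : ℝ) * #A ≤ A.addEnergy A := by exact_mod_cast le_addEnergy
  have h2 : x * ((#A : ℝ) * #A) ≤ (#A : ℝ) ^ 3 * ((#A : ℝ) * #A) := by
    calc x * ((#A : ℝ) * #A) ≤ x * A.addEnergy A := by gcongr
      _ ≤ (#A : ℝ) ^ 5 := hE
      _ = _ := by ring
  exact le_of_mul_le_mul_right h2 (by positivity)

/-- `p ^ (3 s) ≤ x ^ 3` gives `p ^ s ≤ x` -/
lemma cube_root {p : ℕ} [Fact p.Prime] {s t x : ℝ} (hx : 0 ≤ x) (hst : 3 * s ≤ t)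
    (h : (p : ℝ) ^ t ≤ x ^ 3) : (p : ℝ) ^ s ≤ x := by
  have hp : (1 : ℝ) < p := by exact_mod_cast (Fact.out : p.Prime).one_lt
  have hp0 : (0 : ℝ) < p := by linarith
  refine le_of_pow_le_pow_left₀ (n := 3) (by norm_num) hx ?_
  calc ((p : ℝ) ^ s) ^ 3 = (p : ℝ) ^ (3 * s) := by
        rw [← Real.rpow_natCast, ← Real.rpow_mul hp0.le]
        congr 1
        push_cast
        ring
    _ ≤ (p : ℝ) ^ t := Real.rpow_le_rpow_of_exponent_le hp.le hst
    _ ≤ x ^ 3 := h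

end EC

theorem specEC1 : SpecEC1 := by
  classical
  intro δ hδ
  obtain ⟨τ₁, hτ₁, P, hP⟩ := specEN2 (min δ (1 / 3)) (by positivity)
  refine ⟨min (τ₁ / 2) δ, by positivity, P, ?_⟩
  intro p _ hp A C D hA hC hACD hCD hE χ hχ
  set τ := min (τ₁ / 2) δ with hτ
  have hτ0 : 0 < τ := by positivity
  have hτ1 : τ ≤ τ₁ / 2 := min_le_left _ _
  have hτ2 : τ ≤ δ := min_le_right _ _
  have hp1 : (1 : ℝ) < p := by exact_mod_cast (Fact.out : p.Prime).one_lt
  have hp0 : (0 : ℝ) < p := by linarith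
  have mono : ∀ {a b : ℝ}, a ≤ b → (p : ℝ) ^ a ≤ (p : ℝ) ^ b :=
    fun h => Real.rpow_le_rpow_of_exponent_le hp1.le h
  have hA0 : (0 : ℝ) < #A := by exact_mod_cast hA.card_pos
  have hD0 : (0 : ℝ) ≤ #D := Nat.cast_nonneg _
  -- `#D ≤ #A`
  have hDA : (#D : ℝ) ≤ #A := by
    have h1 : (p : ℝ) ^ δ * #D ≤ (p : ℝ) ^ δ * #A := by
      calc (p : ℝ) ^ δ * #D ≤ #C * #D := by gcongr
        _ ≤ (p : ℝ) ^ τ * #A := hCD
        _ ≤ (p : ℝ) ^ δ * #A := by gcongr; exact hp1.le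
    exact le_of_mul_le_mul_left h1 (by positivity)
  have hA1 : (p : ℝ) ^ (min δ (1 / 3)) ≤ #A := by
    refine cube_root (t := 1 + δ) hA0.le ?_ (card_large hA ?_ (by positivity))
    · have := min_le_right δ (1 / 3)
      linarith
    · refine hE.trans ?_
      calc (#D : ℝ) * (#A : ℝ) ^ 4 ≤ #A * (#A : ℝ) ^ 4 := by gcongr
        _ = _ := by ring
  have hmain := hP p hp A D C 1 1 hA1 ((mono (min_le_left _ _)).trans hC) le_rfl (Or.inl rfl) (by
    rw [Nat.cast_one, one_mul]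
    refine le_trans ?_ hE
    gcongr
    · exact hp1.le
    · exact min_le_left _ _) (by
    intro a ha
    obtain ⟨c, hc, d, hd, h⟩ := mem_add.1 (hACD ha)
    rw [Nat.one_le_iff_ne_zero, card_ne_zero]
    exact ⟨(d, c), mem_filter.2 ⟨mem_product.2 ⟨hd, hc⟩, by rw [← h, add_comm]⟩⟩) χ hχ
  refine q1_of_NB (t₁ := τ₁) (σ := τ) (S := (#D : ℝ) * #C / (1 : ℕ)) hA hτ0 (by linarith) ?_ hmain
  rw [Nat.cast_one, div_one, mul_comm]
  exact hCD

namespace EC

/-- the number of elements of a progression -/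
lemma card_ap {p : ℕ} [Fact p.Prime] (c : ZMod p) {g : ZMod p} (hg : g ≠ 0) {n : ℕ}
    (hn : n ≤ p) : #((range n).image fun k : ℕ => c + (k : ZMod p) * g) = n := by
  rw [card_image_of_injOn, card_range]
  intro i hi j hj h
  have h1 : ((i : ℕ) : ZMod p) = (j : ℕ) := by
    have h2 : (i : ZMod p) * g = (j : ZMod p) * g := add_left_cancel h
    exact mul_right_cancel₀ hg h2
  have hi' : i < n := mem_range.1 hi
  have hj' : j < n := mem_range.1 hj
  rw [ZMod.natCast_eq_natCast_iff'] at h1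
  rwa [Nat.mod_eq_of_lt (hi'.trans_le hn), Nat.mod_eq_of_lt (hj'.trans_le hn)] at h1

end EC

theorem specEC2 : SpecEC2 := by
  classical
  intro δ hδ
  set δ₁ : ℝ := min δ (1 / 8) with hδ₁
  have hδ₁0 : 0 < δ₁ := by positivity
  have hδ₁1 : δ₁ ≤ δ := min_le_left _ _
  have hδ₁2 : δ₁ ≤ 1 / 8 := min_le_right _ _
  obtain ⟨τ₁, hτ₁, P₁, hP₁⟩ := specEN2 δ₁ hδ₁0
  set τ : ℝ := τ₁ / 3 with hτ
  have hτ0 : 0 < τ := by positivity
  obtain ⟨P₂, hP₂⟩ : ∃ P : ℕ, ∀ p : ℕ, P ≤ p → (2 : ℝ) ≤ (p : ℝ) ^ τ ∧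
      (2 : ℝ) ≤ (p : ℝ) ^ (1 / 4 : ℝ) := by
    have h1 := (tendsto_rpow_atTop hτ0).comp tendsto_natCast_atTop_atTop
    have h2 := (tendsto_rpow_atTop (show (0 : ℝ) < 1 / 4 by norm_num)).comp
      tendsto_natCast_atTop_atTop
    have h3 := (h1.eventually_ge_atTop 2).and (h2.eventually_ge_atTop 2)
    obtain ⟨P, hP⟩ := Filter.eventually_atTop.1 h3
    exact ⟨P, fun p hp => hP p hp⟩
  refine ⟨τ, hτ0, max P₁ P₂, ?_⟩
  intro p _ hp A L D c g n hA hg hn hn1 hL hALD hLD hE χ hχ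
  obtain ⟨hp2, hp3⟩ := hP₂ p ((le_max_right _ _).trans hp)
  have hp1 : (1 : ℝ) < p := by exact_mod_cast (Fact.out : p.Prime).one_lt
  have hp0 : (0 : ℝ) < p := by linarith
  have mono : ∀ {a b : ℝ}, a ≤ b → (p : ℝ) ^ a ≤ (p : ℝ) ^ b :=
    fun h => Real.rpow_le_rpow_of_exponent_le hp1.le h
  have hA0 : (0 : ℝ) < #A := by exact_mod_cast hA.card_pos
  have hA1 : (p : ℝ) ^ δ₁ ≤ #A := by
    refine cube_root (t := 1 + δ) hA0.le ?_ (card_large hA hE (by positivity))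
    linarith
  -- the short progression
  set n' : ℕ := ⌈(p : ℝ) ^ δ₁⌉₊ with hn'
  have hn'0 : (p : ℝ) ^ δ₁ ≤ n' := Nat.le_ceil _
  have hpd : (1 : ℝ) ≤ (p : ℝ) ^ δ₁ := Real.one_le_rpow hp1.le hδ₁0.le
  have hn'1 : 0 < n' := Nat.ceil_pos.2 (by linarith)
  have hn'2 : n' ≤ n := Nat.ceil_le.2 ((mono hδ₁1).trans hn1)
  have hn'3 : (n' : ℝ) ≤ 2 * (p : ℝ) ^ δ₁ := by
    have := Nat.ceil_lt_add_one (show (0 : ℝ) ≤ (p : ℝ) ^ δ₁ by positivity)
    linarith
  have hn'4 : (n' : ℝ) ≤ (p : ℝ) ^ (1 / 2 - δ₁) := by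
    refine hn'3.trans ?_
    calc 2 * (p : ℝ) ^ δ₁ ≤ (p : ℝ) ^ (1 / 4 : ℝ) * (p : ℝ) ^ δ₁ := by gcongr
      _ = (p : ℝ) ^ (1 / 4 + δ₁) := (Real.rpow_add hp0 _ _).symm
      _ ≤ _ := mono (by linarith)
  set C : Finset (ZMod p) := (range n').image fun k : ℕ => c + (k : ZMod p) * g with hC
  have hCc : #C = n' := card_ap c hg (hn'2.trans hn)
  set D' : Finset (ZMod p) := (D ×ˢ range (n / n' + 1)).image
    (fun x => x.1 + ((x.2 * n' : ℕ) : ZMod p) * g) with hD'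
  have hD'c : #D' ≤ #D * (n / n' + 1) := by
    refine card_image_le.trans ?_
    rw [card_product, card_range]
  have hrep : ∀ a ∈ A, ∃ d ∈ D', ∃ x ∈ C, d + x = a := by
    intro a ha
    obtain ⟨l, hl, d, hd, h⟩ := mem_add.1 (hALD ha)
    rw [hL, mem_image] at hl
    obtain ⟨k, hk, rfl⟩ := hl
    have hkn : k < n := mem_range.1 hk
    refine ⟨d + ((k / n' * n' : ℕ) : ZMod p) * g, ?_, c + ((k % n' : ℕ) : ZMod p) * g, ?_, ?_⟩
    · refine mem_image.2 ⟨(d, k / n'), mem_product.2 ⟨hd, mem_range.2 ?_⟩, rfl⟩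
      exact Nat.lt_succ_of_le (Nat.div_le_div_right hkn.le)
    · exact mem_image.2 ⟨k % n', mem_range.2 (Nat.mod_lt _ hn'1), rfl⟩
    · rw [← h]
      have e : ((k : ℕ) : ZMod p) = ((k / n' * n' : ℕ) : ZMod p) + ((k % n' : ℕ) : ZMod p) := by
        rw [← Nat.cast_add, mul_comm, Nat.div_add_mod]
      rw [e]
      ring
  have hAD' : (#A : ℝ) ≤ #C * #D' := by
    have h1 : A ⊆ D' + C := by
      intro a ha
      obtain ⟨d, hd, x, hx, h⟩ := hrep a ha
      exact mem_add.2 ⟨d, hd, x, hx, h⟩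
    have h2 := (card_le_card h1).trans card_add_le
    rw [mul_comm]
    exact_mod_cast h2
  have hmain := hP₁ p ((le_max_left _ _).trans hp) A D' C 1 #C hA1 (by rw [hCc]; exact hn'0)
    le_rfl (Or.inr ⟨rfl, by rw [hCc]; exact hn'4, c, g, n', rfl⟩) (by
    calc (p : ℝ) ^ (1 + δ₁) * A.addEnergy A ≤ (p : ℝ) ^ (1 + δ) * A.addEnergy A := by
          gcongr
          exact hp1.le
      _ ≤ (#A : ℝ) ^ 5 := hE
      _ = #A * (#A : ℝ) ^ 4 := by ring
      _ ≤ (#C * #D') * (#A : ℝ) ^ 4 := by gcongr) (by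
    intro a ha
    obtain ⟨d, hd, x, hx, h⟩ := hrep a ha
    rw [Nat.one_le_iff_ne_zero, card_ne_zero]
    exact ⟨(d, x), mem_filter.2 ⟨mem_product.2 ⟨hd, hx⟩, h⟩⟩) χ hχ
  refine q1_of_NB (t₁ := τ₁) (σ := 2 * τ) (S := (#D' : ℝ) * #C / (1 : ℕ)) hA hτ0
    (by rw [hτ]; linarith) ?_ hmain
  rw [Nat.cast_one, div_one, hCc]
  have h1 : #D' * n' ≤ 2 * (n * #D) := by
    calc #D' * n' ≤ #D * (n / n' + 1) * n' := Nat.mul_le_mul_right _ hD'c
      _ = #D * (n / n' * n' + n') := by ring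
      _ ≤ #D * (n + n) := Nat.mul_le_mul_left _ (add_le_add (Nat.div_mul_le_self _ _) hn'2)
      _ = _ := by ring
  have h2 : (#D' : ℝ) * n' ≤ 2 * (n * #D) := by exact_mod_cast h1
  calc (#D' : ℝ) * n' ≤ 2 * (n * #D) := h2
    _ ≤ (p : ℝ) ^ τ * ((p : ℝ) ^ τ * #A) := by gcongr
    _ = (p : ℝ) ^ (2 * τ) * #A := by
        rw [two_mul, Real.rpow_add hp0]
        ring

theorem specEC3 : SpecEC3 := by
  classical
  intro δ hδ
  set δ₁ : ℝ := min (δ / 3) (1 / 20) with hδ₁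
  have hδ₁0 : 0 < δ₁ := by positivity
  have hδ₁1 : δ₁ ≤ δ / 3 := min_le_left _ _
  have hδ₁2 : δ₁ ≤ 1 / 20 := min_le_right _ _
  obtain ⟨τ₁, hτ₁, P₁, hP₁⟩ := specEN2 δ₁ hδ₁0
  set τ : ℝ := min (τ₁ / 2) (1 / 20) with hτ
  have hτ0 : 0 < τ := by positivity
  have hτ1 : τ ≤ τ₁ / 2 := min_le_left _ _
  have hτ2 : τ ≤ 1 / 20 := min_le_right _ _
  obtain ⟨P₂, hP₂⟩ : ∃ P : ℕ, ∀ p : ℕ, P ≤ p → (2 : ℝ) ≤ (p : ℝ) ^ (1 / 15 : ℝ) := by
    have h2 := (tendsto_rpow_atTop (show (0 : ℝ) < 1 / 15 by norm_num)).comp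
      tendsto_natCast_atTop_atTop
    obtain ⟨P, hP⟩ := Filter.eventually_atTop.1 (h2.eventually_ge_atTop 2)
    exact ⟨P, fun p hp => hP p hp⟩
  refine ⟨τ, hτ0, max P₁ P₂, ?_⟩
  intro p _ hp A L c g n hg hn hn1 hL hA hAL hE χ hχ
  have hp2 := hP₂ p ((le_max_right _ _).trans hp)
  have hp1 : (1 : ℝ) < p := by exact_mod_cast (Fact.out : p.Prime).one_lt
  have hp0 : (0 : ℝ) < p := by linarith
  have mono : ∀ {a b : ℝ}, a ≤ b → (p : ℝ) ^ a ≤ (p : ℝ) ^ b :=
    fun h => Real.rpow_le_rpow_of_exponent_le hp1.le h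
  have hA0 : (0 : ℝ) < #A := by exact_mod_cast hA.card_pos
  have hn0 : 0 < n := by
    have h1 : (0 : ℝ) < (p : ℝ) ^ δ := by positivity
    exact_mod_cast h1.trans_le hn1
  have hA1 : (p : ℝ) ^ δ₁ ≤ #A := by
    refine cube_root (t := δ) hA0.le (by linarith) (card_large hA ?_ (by positivity))
    have hE0 : (0 : ℝ) ≤ A.addEnergy A := Nat.cast_nonneg _
    have h1 : (p : ℝ) * ((p : ℝ) ^ δ * A.addEnergy A) ≤ p * (#A : ℝ) ^ 5 := by
      calc (p : ℝ) * ((p : ℝ) ^ δ * A.addEnergy A) = (p : ℝ) ^ (1 + δ) * A.addEnergy A := by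
            rw [Real.rpow_add hp0, Real.rpow_one]
            ring
        _ ≤ n * (#A : ℝ) ^ 5 := hE
        _ ≤ p * (#A : ℝ) ^ 5 := by gcongr
    exact le_of_mul_le_mul_left h1 hp0
  -- the short progression
  set n' : ℕ := min n ⌊(p : ℝ) ^ (1 / 2 - δ₁)⌋₊ with hn'
  have hn'1 : n' ≤ n := min_le_left _ _
  have hfl : (p : ℝ) ^ (1 / 2 - δ₁) ≤ 2 * (⌊(p : ℝ) ^ (1 / 2 - δ₁)⌋₊ : ℝ) := by
    have h1 := Nat.lt_floor_add_one ((p : ℝ) ^ (1 / 2 - δ₁))
    have h2 : (2 : ℝ) ≤ (p : ℝ) ^ (1 / 2 - δ₁) := hp2.trans (mono (by linarith))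
    linarith
  have hn'2 : (n' : ℝ) ≤ (p : ℝ) ^ (1 / 2 - δ₁) := by
    refine le_trans ?_ (Nat.floor_le (by positivity))
    exact_mod_cast min_le_right _ _
  have hn'3 : (p : ℝ) ^ δ₁ ≤ n' := by
    rw [hn']
    rcases min_choice n ⌊(p : ℝ) ^ (1 / 2 - δ₁)⌋₊ with h | h
    · rw [h]
      exact (mono (by linarith)).trans hn1
    · rw [h]
      have h1 : 2 * (p : ℝ) ^ δ₁ ≤ (p : ℝ) ^ (1 / 2 - δ₁) := by
        calc 2 * (p : ℝ) ^ δ₁ ≤ (p : ℝ) ^ (1 / 15 : ℝ) * (p : ℝ) ^ δ₁ := by gcongr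
          _ = (p : ℝ) ^ (1 / 15 + δ₁) := (Real.rpow_add hp0 _ _).symm
          _ ≤ _ := mono (by linarith)
      linarith
  have hpd : (1 : ℝ) ≤ (p : ℝ) ^ δ₁ := Real.one_le_rpow hp1.le hδ₁0.le
  have hn'4 : 1 ≤ n' := by
    have : (1 : ℝ) ≤ n' := hpd.trans hn'3
    exact_mod_cast this
  set C : Finset (ZMod p) := (range n').image fun k : ℕ => -c + (k : ZMod p) * (-g) with hC
  have hCc : #C = n' := card_ap (-c) (neg_ne_zero.2 hg) (hn'1.trans hn)
  set L' : Finset (ZMod p) := (range n').image fun k : ℕ => c + (k : ZMod p) * g with hL'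
  have hL'L : L' ⊆ L := by
    rw [hL, hL']
    exact image_subset_image (range_subset_range.2 hn'1)
  set D : Finset (ZMod p) := A + L' with hD
  have hL'n : L'.Nonempty := by
    rw [hL', image_nonempty, nonempty_range_iff]
    omega
  have hDA : #A ≤ #D := card_le_card_add_right hL'n
  have hDL : (#D : ℝ) ≤ (p : ℝ) ^ τ * #A := by
    refine le_trans ?_ hAL
    exact_mod_cast card_le_card (add_subset_add_left hL'L)
  have hE0 : (0 : ℝ) ≤ A.addEnergy A := Nat.cast_nonneg _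
  have hEn : (p : ℝ) ^ (1 + δ₁) * A.addEnergy A ≤ n' * (#A : ℝ) ^ 5 := by
    rcases min_choice n ⌊(p : ℝ) ^ (1 / 2 - δ₁)⌋₊ with h | h
    · rw [hn', h]
      refine le_trans ?_ hE
      gcongr
      · exact hp1.le
      · linarith
    · -- here `#A` is large
      have h1 : (p : ℝ) ^ (1 / 2 - δ₁) ≤ 2 * (n' : ℝ) := by
        rw [hn', h]
        exact hfl
      have h2 : (n' : ℝ) ≤ (p : ℝ) ^ τ * #A := by
        refine le_trans ?_ hAL
        have e1 : n' ≤ #(A + L) := by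
          have e2 : #L = n := by rw [hL]; exact card_ap c hg hn
          have e3 : #L ≤ #(A + L) := card_le_card_add_left hA
          omega
        exact_mod_cast e1
      have h3 : (p : ℝ) ^ (2 / 5 : ℝ) ≤ 2 * #A := by
        have e1 : (p : ℝ) ^ (1 / 2 - δ₁) ≤ (p : ℝ) ^ τ * (2 * #A) := by
          refine h1.trans ?_
          calc 2 * (n' : ℝ) ≤ 2 * ((p : ℝ) ^ τ * #A) := by gcongr
            _ = _ := by ring
        have e2 : (p : ℝ) ^ τ * (p : ℝ) ^ (2 / 5 : ℝ) ≤ (p : ℝ) ^ τ * (2 * #A) := by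
          refine le_trans ?_ e1
          rw [← Real.rpow_add hp0]
          exact mono (by linarith)
        exact le_of_mul_le_mul_left e2 (by positivity)
      have h4 : (p : ℝ) ^ (9 / 20 : ℝ) ≤ 2 * (n' : ℝ) := (mono (by linarith)).trans h1
      have h5 : (p : ℝ) ^ (1 + δ₁) ≤ n' * (#A : ℝ) ^ 2 := by
        have e1 : (8 : ℝ) * (p : ℝ) ^ (1 + δ₁) ≤ 8 * (n' * (#A : ℝ) ^ 2) := by
          calc (8 : ℝ) * (p : ℝ) ^ (1 + δ₁) = 2 ^ 3 * (p : ℝ) ^ (1 + δ₁) := by norm_num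
            _ ≤ ((p : ℝ) ^ (1 / 15 : ℝ)) ^ 3 * (p : ℝ) ^ (1 + δ₁) := by
                gcongr
            _ = (p : ℝ) ^ (1 / 5 + (1 + δ₁)) := by
                rw [← Real.rpow_natCast, ← Real.rpow_mul hp0.le, ← Real.rpow_add hp0]
                congr 1
                push_cast
                ring
            _ ≤ (p : ℝ) ^ (9 / 20 + 2 / 5 + 2 / 5 : ℝ) := mono (by linarith)
            _ = (p : ℝ) ^ (9 / 20 : ℝ) * ((p : ℝ) ^ (2 / 5 : ℝ)) ^ 2 := by
                rw [Real.rpow_add hp0, Real.rpow_add hp0]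
                ring
            _ ≤ (2 * n') * (2 * #A) ^ 2 := by gcongr
            _ = _ := by ring
        linarith
      have h6 : (A.addEnergy A : ℝ) ≤ (#A : ℝ) ^ 3 := by exact_mod_cast energy_le A
      calc (p : ℝ) ^ (1 + δ₁) * A.addEnergy A ≤ (n' * (#A : ℝ) ^ 2) * (#A : ℝ) ^ 3 :=
            mul_le_mul h5 h6 hE0 (mul_nonneg (Nat.cast_nonneg _) (sq_nonneg _))
        _ = _ := by ring
  have hmain := hP₁ p ((le_max_left _ _).trans hp) A D C n' #C hA1 (by rw [hCc]; exact hn'3)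
    hn'4 (Or.inr ⟨rfl, by rw [hCc]; exact hn'2, -c, -g, n', rfl⟩) (by
    refine hEn.trans ?_
    rw [hCc]
    have : (#A : ℝ) ≤ #D := by exact_mod_cast hDA
    calc (n' : ℝ) * (#A : ℝ) ^ 5 = n' * #A * (#A : ℝ) ^ 4 := by ring
      _ ≤ n' * #D * (#A : ℝ) ^ 4 := by gcongr) (by
    intro a ha
    have h1 : #(range n') ≤ #((D ×ˢ C).filter fun x => x.1 + x.2 = a) := by
      refine card_le_card_of_injOn (fun k : ℕ => (a + (c + (k : ZMod p) * g),
        -c + (k : ZMod p) * (-g))) ?_ ?_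
      · intro k hk
        rw [mem_coe] at hk
        refine mem_coe.2 (mem_filter.2 ⟨mem_product.2 ⟨?_, ?_⟩, ?_⟩)
        · exact add_mem_add ha (mem_image_of_mem _ hk)
        · exact mem_image_of_mem _ hk
        · ring
      · intro i hi j hj h
        have h2 : a + (c + (i : ZMod p) * g) = a + (c + (j : ZMod p) * g) :=
          (Prod.mk.injEq _ _ _ _ ▸ h).1
        have h3 : (i : ZMod p) = j := mul_right_cancel₀ hg (add_left_cancel (add_left_cancel h2))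
        have hi' : i < n' := mem_range.1 hi
        have hj' : j < n' := mem_range.1 hj
        rw [ZMod.natCast_eq_natCast_iff'] at h3
        rwa [Nat.mod_eq_of_lt (by omega), Nat.mod_eq_of_lt (by omega)] at h3
    rwa [card_range] at h1) χ hχ
  refine q1_of_NB (t₁ := τ₁) (σ := τ) (S := (#D : ℝ) * #C / n') hA hτ0 (by linarith) ?_ hmain
  have hn'pos : (n' : ℝ) ≠ 0 := by
    have : (0 : ℝ) < n' := by exact_mod_cast hn'4
    exact this.ne'
  rw [hCc, mul_div_assoc, div_self hn'pos, mul_one]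
  exact hDL

end MPcb27.CO
end

section
/-!
# MP_cb27ba_nt, corollaries: EV (every character outside a small subgroup)

If the norm of the matrix `χ (a - b)` is almost `(#A #B) ^ (1/2)`, the matrix is close to a matrix
`u a * v b` of rank one with `|u| = |v| = 1`. The product of few such characters is again of this form,
and theorem OP4 bounds the number of all these products. So the characters with an almost maximal norm
generate a small subgroup.
-/
set_option autoImplicit false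

namespace MPcb27.CO

open Finset
open MPcb27.TU
open scoped Pointwise

/-- EV: all characters with almost maximal norm are in a subgroup with `d < L` elements -/
def SpecEV : Prop :=
  ∃ C : ℝ, 1 ≤ C ∧ ∃ P : ℕ, ∀ (p : ℕ) [Fact p.Prime], P ≤ p → ∀ A B : Finset (ZMod p),
    64 ≤ #A → 64 ≤ #B → ∀ L : ℝ, L = Real.log p ^ C * max 1 ((p : ℝ) / (#A * #B)) →
      ∃ d : ℕ, 1 ≤ d ∧ (d : ℝ) < L ∧ ∀ χ : DirichletCharacter ℂ p, χ ^ d ≠ 1 →
        NB χ A B ((1 - (L ^ 2)⁻¹) * Real.sqrt ((#A : ℝ) * #B))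

/-- the phase of a complex number -/
noncomputable def ph (z : ℂ) : ℂ := if z = 0 then 1 else z / ‖z‖

lemma norm_ph (z : ℂ) : ‖ph z‖ = 1 := by
  unfold ph
  split_ifs with h
  · simp
  · rw [norm_div, Complex.norm_real, norm_norm, div_self (norm_ne_zero_iff.2 h)]

lemma ph_near {z x y : ℂ} (hz : ‖z‖ = 1) : ‖z - ph x * ph y‖ ≤ 2 * ‖z - x * y‖ := by
  by_cases h : x * y = 0
  · rw [h, sub_zero, hz]
    refine (norm_sub_le _ _).trans ?_
    rw [norm_mul, norm_ph, norm_ph, hz]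
    norm_num
  · have hx : x ≠ 0 := left_ne_zero_of_mul h
    have hy : y ≠ 0 := right_ne_zero_of_mul h
    have hn : ‖x * y‖ ≠ 0 := norm_ne_zero_iff.2 h
    have e1 : ph x * ph y = x * y / (‖x * y‖ : ℝ) := by
      unfold ph
      rw [if_neg hx, if_neg hy, norm_mul]
      push_cast
      field_simp
    have e2 : x * y - ph x * ph y = x * y / (‖x * y‖ : ℝ) * ((‖x * y‖ - 1 : ℝ) : ℂ) := by
      rw [e1]
      have : ((‖x * y‖ : ℝ) : ℂ) ≠ 0 := by exact_mod_cast hn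
      push_cast
      field_simp
    have e3 : ‖x * y - ph x * ph y‖ ≤ ‖z - x * y‖ := by
      rw [e2, norm_mul, norm_div, Complex.norm_real, norm_norm, div_self hn, one_mul,
        Complex.norm_real, Real.norm_eq_abs, ← hz, norm_sub_rev z]
      exact abs_norm_sub_norm_le _ _
    calc ‖z - ph x * ph y‖ = ‖(z - x * y) + (x * y - ph x * ph y)‖ := by ring_nf
      _ ≤ ‖z - x * y‖ + ‖x * y - ph x * ph y‖ := norm_add_le _ _
      _ ≤ _ := by linarith

/-- the matrix of `χ` is close to a matrix of rank one, if its norm is almost maximal -/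
lemma near_rank_one {p : ℕ} [Fact p.Prime] {χ : DirichletCharacter ℂ p} {A B : Finset (ZMod p)}
    {η : ℝ} (hη : η ≤ 1) (h : ¬ NB χ A B ((1 - η) * Real.sqrt ((#A : ℝ) * #B))) :
    ∃ x y : ZMod p → ℂ,
      ∑ a ∈ A, ∑ b ∈ B, ‖χ (a - b) - x a * y b‖ ^ 2 ≤ 2 * η * ((#A : ℝ) * #B) := by
  unfold NB at h
  push Not at h
  obtain ⟨α, β, h⟩ := h
  set T : ℂ := ∑ a ∈ A, ∑ b ∈ B, α a * β b * χ (a - b) with hT
  set S₁ : ℝ := ∑ a ∈ A, ‖α a‖ ^ 2 with hS₁
  set S₂ : ℝ := ∑ b ∈ B, ‖β b‖ ^ 2 with hS₂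
  set N : ℝ := (#A : ℝ) * #B with hN
  have hS₁0 : 0 ≤ S₁ := sum_nonneg fun a _ => by positivity
  have hS₂0 : 0 ≤ S₂ := sum_nonneg fun a _ => by positivity
  have hN0 : 0 ≤ N := by positivity
  have hη' : 0 ≤ 1 - η := by linarith
  have hT0 : 0 < ‖T‖ := lt_of_le_of_lt (by positivity) h
  have hTne : T ≠ 0 := norm_pos_iff.1 hT0
  have hs : 0 < Real.sqrt S₁ := by
    rw [Real.sqrt_pos]
    refine lt_of_le_of_ne hS₁0 fun h0 => hTne ?_
    have h1 := (sum_eq_zero_iff_of_nonneg fun a _ => by positivity).1 h0.symm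
    rw [hT]
    refine sum_eq_zero fun a ha => sum_eq_zero fun b _ => ?_
    have h2 := h1 a ha
    rw [sq_eq_zero_iff, norm_eq_zero] at h2
    rw [h2]
    ring
  have ht : 0 < Real.sqrt S₂ := by
    rw [Real.sqrt_pos]
    refine lt_of_le_of_ne hS₂0 fun h0 => hTne ?_
    have h1 := (sum_eq_zero_iff_of_nonneg fun a _ => by positivity).1 h0.symm
    rw [hT]
    refine sum_eq_zero fun a _ => sum_eq_zero fun b hb => ?_
    have h2 := h1 b hb
    rw [sq_eq_zero_iff, norm_eq_zero] at h2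
    rw [h2]
    ring
  set r : ℝ := Real.sqrt N / (Real.sqrt S₁ * Real.sqrt S₂) / ‖T‖ with hr
  have hrS : r ^ 2 * (‖T‖ ^ 2 * (S₁ * S₂)) = N := by
    rw [hr, div_pow, div_pow, mul_pow, Real.sq_sqrt hN0, Real.sq_sqrt hS₁0, Real.sq_sqrt hS₂0]
    have h1 : S₁ ≠ 0 := by
      rw [Real.sqrt_pos] at hs
      exact hs.ne'
    have h2 : S₂ ≠ 0 := by
      rw [Real.sqrt_pos] at ht
      exact ht.ne'
    field_simp
  have hrT : (1 - η) * N ≤ r * ‖T‖ ^ 2 := by
    have h1 : r * ‖T‖ ^ 2 = Real.sqrt N * (‖T‖ / (Real.sqrt S₁ * Real.sqrt S₂)) := by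
      rw [hr]
      field_simp
    have h2 : (1 - η) * Real.sqrt N ≤ ‖T‖ / (Real.sqrt S₁ * Real.sqrt S₂) := by
      rw [le_div_iff₀ (by positivity)]
      exact h.le
    calc (1 - η) * N = Real.sqrt N * ((1 - η) * Real.sqrt N) := by
          nth_rewrite 1 [← Real.mul_self_sqrt hN0]
          ring
      _ ≤ Real.sqrt N * (‖T‖ / (Real.sqrt S₁ * Real.sqrt S₂)) :=
          mul_le_mul_of_nonneg_left h2 (Real.sqrt_nonneg _)
      _ = _ := h1.symm
  refine ⟨fun a => (r : ℂ) * T * (starRingEnd ℂ) (α a), fun b => (starRingEnd ℂ) (β b), ?_⟩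
  have e1 : ∀ a b, ‖χ (a - b) - (r : ℂ) * T * (starRingEnd ℂ) (α a) * (starRingEnd ℂ) (β b)‖ ^ 2 ≤
      1 + r ^ 2 * ‖T‖ ^ 2 * (‖α a‖ ^ 2 * ‖β b‖ ^ 2) -
        2 * (r * ((starRingEnd ℂ) T * (α a * β b * χ (a - b)))).re := by
    intro a b
    rw [Complex.sq_norm, Complex.normSq_sub]
    have h1 : Complex.normSq (χ (a - b)) ≤ 1 := by
      rw [← Complex.sq_norm]
      have := DirichletCharacter.norm_le_one χ (a - b)
      have h0 := norm_nonneg (χ (a - b))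
      nlinarith
    have h2 : Complex.normSq ((r : ℂ) * T * (starRingEnd ℂ) (α a) * (starRingEnd ℂ) (β b)) =
        r ^ 2 * ‖T‖ ^ 2 * (‖α a‖ ^ 2 * ‖β b‖ ^ 2) := by
      rw [← Complex.sq_norm, norm_mul, norm_mul, norm_mul, Complex.norm_real, Complex.norm_conj,
        Complex.norm_conj, mul_pow, mul_pow, mul_pow, Real.norm_eq_abs, sq_abs]
      ring
    have h3 : χ (a - b) * (starRingEnd ℂ)
        ((r : ℂ) * T * (starRingEnd ℂ) (α a) * (starRingEnd ℂ) (β b)) =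
        r * ((starRingEnd ℂ) T * (α a * β b * χ (a - b))) := by
      rw [map_mul, map_mul, map_mul, Complex.conj_conj, Complex.conj_conj, Complex.conj_ofReal]
      ring
    rw [h2, h3]
    linarith
  calc ∑ a ∈ A, ∑ b ∈ B, ‖χ (a - b) - (r : ℂ) * T * (starRingEnd ℂ) (α a) *
        (starRingEnd ℂ) (β b)‖ ^ 2
      ≤ ∑ a ∈ A, ∑ b ∈ B, (1 + r ^ 2 * ‖T‖ ^ 2 * (‖α a‖ ^ 2 * ‖β b‖ ^ 2) -
        2 * (r * ((starRingEnd ℂ) T * (α a * β b * χ (a - b)))).re) :=
        sum_le_sum fun a _ => sum_le_sum fun b _ => e1 a b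
    _ = N + r ^ 2 * ‖T‖ ^ 2 * (S₁ * S₂) - 2 * (r * ((starRingEnd ℂ) T * T)).re := by
        have h1 : ∑ a ∈ A, ∑ b ∈ B, (r * ((starRingEnd ℂ) T * (α a * β b * χ (a - b)))).re =
            (r * ((starRingEnd ℂ) T * T)).re := by
          rw [hT, mul_sum, mul_sum, Complex.re_sum]
          refine sum_congr rfl fun a _ => ?_
          rw [mul_sum, mul_sum, Complex.re_sum]
        have h2 : ∑ a ∈ A, ∑ b ∈ B, r ^ 2 * ‖T‖ ^ 2 * (‖α a‖ ^ 2 * ‖β b‖ ^ 2) =
            r ^ 2 * ‖T‖ ^ 2 * (S₁ * S₂) := by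
          rw [hS₁, hS₂, sum_mul_sum, mul_sum]
          refine sum_congr rfl fun a _ => ?_
          rw [mul_sum]
        simp only [sum_sub_distrib, sum_add_distrib]
        rw [h2]
        simp only [← mul_sum]
        rw [h1]
        simp [hN]
    _ = N + N - 2 * (r * ‖T‖ ^ 2) := by
        have h1 : r ^ 2 * ‖T‖ ^ 2 * (S₁ * S₂) = N := by rw [← hrS]; ring
        rw [h1]
        congr 2
        rw [mul_comm ((starRingEnd ℂ) T) T, Complex.mul_conj, ← Complex.ofReal_mul,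
          Complex.ofReal_re, Complex.sq_norm]
    _ ≤ _ := by linarith

/-- the matrix of `χ` is at distance at most `c (#A #B) ^ (1/2)` from `x a * y b` off the diagonal,
`|x| = |y| = 1` -/
def Near {p : ℕ} (A B : Finset (ZMod p)) (c : ℝ) (χ : DirichletCharacter ℂ p) : Prop :=
  ∃ x y : ZMod p → ℂ, (∀ a, ‖x a‖ = 1) ∧ (∀ b, ‖y b‖ = 1) ∧
    ∑ a ∈ A, ∑ b ∈ B, (if a = b then 0 else ‖χ (a - b) - x a * y b‖ ^ 2) ≤
      c ^ 2 * ((#A : ℝ) * #B)

lemma norm_off {p : ℕ} [Fact p.Prime] (χ : DirichletCharacter ℂ p) {a b : ZMod p} (h : a ≠ b) :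
    ‖χ (a - b)‖ = 1 := by
  obtain ⟨u, hu⟩ := (sub_ne_zero.2 h).isUnit
  rw [← hu]
  exact DirichletCharacter.unit_norm_eq_one χ u

lemma near_one {p : ℕ} [Fact p.Prime] (A B : Finset (ZMod p)) : Near A B 0 1 := by
  refine ⟨fun _ => 1, fun _ => 1, by simp, by simp, le_of_eq ?_⟩
  rw [zero_pow two_ne_zero, zero_mul]
  refine sum_eq_zero fun a _ => sum_eq_zero fun b _ => ?_
  split_ifs with h
  · rfl
  · rw [MulChar.one_apply (sub_ne_zero.2 h).isUnit]
    simp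

lemma Near.mono {p : ℕ} {A B : Finset (ZMod p)} {c d : ℝ} {χ : DirichletCharacter ℂ p}
    (h : Near A B c χ) (hc : 0 ≤ c) (hd : c ≤ d) : Near A B d χ := by
  obtain ⟨x, y, hx, hy, h⟩ := h
  exact ⟨x, y, hx, hy, h.trans (by gcongr)⟩

lemma Near.mul {p : ℕ} [Fact p.Prime] {A B : Finset (ZMod p)} {c d : ℝ}
    {χ ψ : DirichletCharacter ℂ p} (h : Near A B c χ) (h' : Near A B d ψ) (hc : 0 < c)
    (hd : 0 < d) : Near A B (c + d) (χ * ψ) := by
  obtain ⟨x, y, hx, hy, h⟩ := h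
  obtain ⟨x', y', hx', hy', h'⟩ := h'
  refine ⟨fun a => x a * x' a, fun b => y b * y' b, fun a => by rw [norm_mul, hx, hx', one_mul],
    fun b => by rw [norm_mul, hy, hy', one_mul], ?_⟩
  have e1 : ∀ a b, (if a = b then 0 else ‖(χ * ψ) (a - b) - x a * x' a * (y b * y' b)‖ ^ 2) ≤
      (1 + d / c) * (if a = b then 0 else ‖χ (a - b) - x a * y b‖ ^ 2) +
      (1 + c / d) * (if a = b then 0 else ‖ψ (a - b) - x' a * y' b‖ ^ 2) := by
    intro a b
    split_ifs with hab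
    · simp
    · rw [MulChar.mul_apply]
      have e2 : χ (a - b) * ψ (a - b) - x a * x' a * (y b * y' b) =
          (χ (a - b) - x a * y b) * ψ (a - b) + x a * y b * (ψ (a - b) - x' a * y' b) := by ring
      have e3 : ‖χ (a - b) * ψ (a - b) - x a * x' a * (y b * y' b)‖ ≤
          ‖χ (a - b) - x a * y b‖ + ‖ψ (a - b) - x' a * y' b‖ := by
        rw [e2]
        refine (norm_add_le _ _).trans ?_
        rw [norm_mul, norm_mul, norm_mul, hx, hy, norm_off ψ hab, mul_one, one_mul, one_mul]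
      set s := ‖χ (a - b) - x a * y b‖
      set t := ‖ψ (a - b) - x' a * y' b‖
      calc ‖χ (a - b) * ψ (a - b) - x a * x' a * (y b * y' b)‖ ^ 2 ≤ (s + t) ^ 2 :=
            pow_le_pow_left₀ (norm_nonneg _) e3 2
        _ ≤ (1 + d / c) * s ^ 2 + (1 + c / d) * t ^ 2 := by
            have e4 : (1 + d / c) * s ^ 2 + (1 + c / d) * t ^ 2 - (s + t) ^ 2 =
                (d * s - c * t) ^ 2 / (c * d) := by
              field_simp
              ring
            have e5 : 0 ≤ (d * s - c * t) ^ 2 / (c * d) := by positivity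
            linarith
  calc ∑ a ∈ A, ∑ b ∈ B,
        (if a = b then 0 else ‖(χ * ψ) (a - b) - x a * x' a * (y b * y' b)‖ ^ 2)
      ≤ ∑ a ∈ A, ∑ b ∈ B, ((1 + d / c) * (if a = b then 0 else ‖χ (a - b) - x a * y b‖ ^ 2) +
      (1 + c / d) * (if a = b then 0 else ‖ψ (a - b) - x' a * y' b‖ ^ 2)) :=
        sum_le_sum fun a _ => sum_le_sum fun b _ => e1 a b
    _ = (1 + d / c) * ∑ a ∈ A, ∑ b ∈ B, (if a = b then 0 else ‖χ (a - b) - x a * y b‖ ^ 2) +
        (1 + c / d) * ∑ a ∈ A, ∑ b ∈ B,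
          (if a = b then 0 else ‖ψ (a - b) - x' a * y' b‖ ^ 2) := by
        simp only [sum_add_distrib, ← mul_sum]
    _ ≤ (1 + d / c) * (c ^ 2 * ((#A : ℝ) * #B)) + (1 + c / d) * (d ^ 2 * ((#A : ℝ) * #B)) := by
        gcongr
    _ = (c + d) ^ 2 * ((#A : ℝ) * #B) := by
        field_simp
        ring

lemma near_of_not_NB {p : ℕ} [Fact p.Prime] {χ : DirichletCharacter ℂ p} {A B : Finset (ZMod p)}
    {η c : ℝ} (hη : η ≤ 1) (hc : 8 * η ≤ c ^ 2)
    (h : ¬ NB χ A B ((1 - η) * Real.sqrt ((#A : ℝ) * #B))) : Near A B c χ := by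
  obtain ⟨x, y, hxy⟩ := near_rank_one hη h
  refine ⟨fun a => ph (x a), fun b => ph (y b), fun a => norm_ph _, fun b => norm_ph _, ?_⟩
  have e1 : ∀ a b, (if a = b then 0 else ‖χ (a - b) - ph (x a) * ph (y b)‖ ^ 2) ≤
      4 * ‖χ (a - b) - x a * y b‖ ^ 2 := by
    intro a b
    split_ifs with hab
    · positivity
    · have h1 := ph_near (x := x a) (y := y b) (norm_off χ hab)
      calc ‖χ (a - b) - ph (x a) * ph (y b)‖ ^ 2 ≤ (2 * ‖χ (a - b) - x a * y b‖) ^ 2 :=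
            pow_le_pow_left₀ (norm_nonneg _) h1 2
        _ = _ := by ring
  calc ∑ a ∈ A, ∑ b ∈ B, (if a = b then 0 else ‖χ (a - b) - ph (x a) * ph (y b)‖ ^ 2)
      ≤ ∑ a ∈ A, ∑ b ∈ B, 4 * ‖χ (a - b) - x a * y b‖ ^ 2 :=
        sum_le_sum fun a _ => sum_le_sum fun b _ => e1 a b
    _ = 4 * ∑ a ∈ A, ∑ b ∈ B, ‖χ (a - b) - x a * y b‖ ^ 2 := by simp only [mul_sum]
    _ ≤ 4 * (2 * η * ((#A : ℝ) * #B)) := by gcongr
    _ = 8 * η * ((#A : ℝ) * #B) := by ring
    _ ≤ _ := by gcongr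

lemma Near.not_NB {p : ℕ} [Fact p.Prime] {χ : DirichletCharacter ℂ p} {A B : Finset (ZMod p)}
    {c : ℝ} (hA : 64 ≤ #A) (hB : 64 ≤ #B) (h : Near A B c χ) (hc : c ^ 2 < 31 / 32) :
    ¬ NB χ A B (1 / 2 * Real.sqrt ((#A : ℝ) * #B)) := by
  obtain ⟨x, y, hx, hy, hxy⟩ := h
  intro hN
  have h1 := hN (fun a => (starRingEnd ℂ) (x a)) (fun b => (starRingEnd ℂ) (y b))
  simp only [Complex.norm_conj, hx, hy, one_pow, sum_const, nsmul_eq_mul, mul_one] at h1
  have hA' : (64 : ℝ) ≤ #A := by exact_mod_cast hA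
  have hB' : (64 : ℝ) ≤ #B := by exact_mod_cast hB
  rw [← Real.sqrt_mul (by positivity), mul_assoc, Real.mul_self_sqrt (by positivity)] at h1
  have e1 : ∀ a b, 1 - (if a = b then (1 : ℝ) else 0) -
      1 / 2 * (if a = b then 0 else ‖χ (a - b) - x a * y b‖ ^ 2) ≤
      ((starRingEnd ℂ) (x a) * (starRingEnd ℂ) (y b) * χ (a - b)).re := by
    intro a b
    split_ifs with hab
    · have h0 : χ (a - b) = 0 := by rw [hab, sub_self b, MulChar.map_zero]
      rw [h0]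
      simp
    · have h2 : (starRingEnd ℂ) (x a) * (starRingEnd ℂ) (y b) * χ (a - b) =
          χ (a - b) * (starRingEnd ℂ) (x a * y b) := by
        rw [map_mul]
        ring
      have h3 := Complex.normSq_sub (χ (a - b)) (x a * y b)
      rw [← Complex.sq_norm, ← Complex.sq_norm, ← Complex.sq_norm, norm_mul, norm_off χ hab, hx,
        hy] at h3
      rw [h2]
      linarith
  have e2 : ∑ a ∈ A, ∑ b ∈ B, (if a = b then (1 : ℝ) else 0) ≤ #A := by
    calc ∑ a ∈ A, ∑ b ∈ B, (if a = b then (1 : ℝ) else 0) ≤ ∑ a ∈ A, (1 : ℝ) := by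
          refine sum_le_sum fun a _ => ?_
          rw [sum_ite_eq]
          split_ifs <;> norm_num
      _ = #A := by simp
  have e3 : ∑ a ∈ A, ∑ b ∈ B, (1 - (if a = b then (1 : ℝ) else 0) -
      1 / 2 * (if a = b then 0 else ‖χ (a - b) - x a * y b‖ ^ 2)) ≤
      1 / 2 * ((#A : ℝ) * #B) := by
    refine le_trans ?_ h1
    refine le_trans ?_ (Complex.re_le_norm _)
    rw [Complex.re_sum]
    refine sum_le_sum fun a _ => ?_
    rw [Complex.re_sum]
    exact sum_le_sum fun b _ => e1 a b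
  simp only [sum_sub_distrib, sum_const, nsmul_eq_mul, mul_one, ← mul_sum] at e3
  have e5 : (#A : ℝ) ≤ 1 / 64 * ((#A : ℝ) * #B) := by nlinarith
  have e6 : 0 < (#A : ℝ) * #B := by positivity
  nlinarith

/-- EV -/
theorem specEV (hO : RU2.FinalOP4) : SpecEV := by
  classical
  obtain ⟨C₀, hC₀, hO⟩ := hO
  set K : ℝ := 256 * C₀ with hK
  have hK0 : 0 < K := by positivity
  set κ : ℝ := Real.logb 2 K with hκ
  have hκ0 : 0 ≤ κ := Real.logb_nonneg (by norm_num) (by linarith)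
  have hκK : (2 : ℝ) ^ κ = K := Real.rpow_logb (by norm_num) (by norm_num) hK0
  refine ⟨κ + 6, by linarith, ⌈Real.exp (3 * (192 * K + 1))⌉₊ + 2, ?_⟩
  intro p _ hp A B hA hB L hL
  have hp1 : (1 : ℝ) < p := by exact_mod_cast (Fact.out : p.Prime).one_lt
  have hp0 : (0 : ℝ) < p := by linarith
  set t : ℝ := Real.log p with ht
  have htK : 3 * (192 * K + 1) ≤ t := by
    rw [ht, Real.le_log_iff_exp_le hp0]
    have h1 := Nat.le_ceil (Real.exp (3 * (192 * K + 1)))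
    have h2 : ((⌈Real.exp (3 * (192 * K + 1))⌉₊ + 2 : ℕ) : ℝ) ≤ p := by exact_mod_cast hp
    push_cast at h2
    linarith
  have ht1 : 1 ≤ t := by linarith
  have ht0 : 0 < t := by linarith
  obtain ⟨n, hn1, hn2⟩ := exists_nat_pow_near ht1 (one_lt_two : (1 : ℝ) < 2)
  set k := n + 1 with hk
  have hk1 : 1 ≤ k := by omega
  have hA0 : A.Nonempty := card_pos.1 (by omega)
  have hB0 : B.Nonempty := card_pos.1 (by omega)
  have hA' : (64 : ℝ) ≤ #A := by exact_mod_cast hA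
  have hB' : (64 : ℝ) ≤ #B := by exact_mod_cast hB
  set m : ℝ := max 1 ((p : ℝ) / (#A * #B)) with hm
  have hm1 : 1 ≤ m := le_max_left _ _
  obtain ⟨E, hE1, hE2⟩ := hO p A B hA0 hB0 k (1 / 2) hk1 (by norm_num) (by norm_num) (by
    have : (64 : ℝ) ≤ min (#A : ℝ) #B := le_min hA' hB'
    linarith)
  have hE : (#E : ℝ) ≤ 192 * K * t ^ (κ + 4) * m := by
    have h1 : (p : ℝ) ^ ((1 / 2 : ℝ) ^ k) ≤ 3 := by
      rw [Real.rpow_def_of_pos hp0, ← ht]
      refine le_trans (Real.exp_le_exp.2 (?_ : _ ≤ (1 : ℝ))) (by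
        have := Real.exp_one_lt_d9
        linarith)
      rw [one_div, inv_pow, ← div_eq_mul_inv, div_le_one (by positivity)]
      exact hn2.le
    have h2 : C₀ ^ k * (((1 / 2 : ℝ) ^ (8 * k + 2))⁻¹) = 4 * K ^ k := by
      have e0 : (2 : ℝ) ^ (8 * k + 2) = 4 * 256 ^ k := by
        rw [pow_add, pow_mul]
        norm_num
        ring
      rw [one_div, inv_pow, inv_inv, e0, hK, mul_pow]
      ring
    have h3 : K ^ k ≤ K * t ^ κ := by
      have e1 : K ^ k = ((2 : ℝ) ^ k) ^ κ := by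
        conv_lhs => rw [← hκK]
        rw [← Real.rpow_natCast, ← Real.rpow_natCast, ← Real.rpow_mul (by norm_num),
          ← Real.rpow_mul (by norm_num), mul_comm]
      rw [e1]
      have e2 : (2 : ℝ) ^ k ≤ 2 * t := by
        rw [hk, pow_succ]
        linarith
      calc ((2 : ℝ) ^ k) ^ κ ≤ (2 * t) ^ κ := Real.rpow_le_rpow (by positivity) e2 hκ0
        _ = K * t ^ κ := by rw [Real.mul_rpow (by norm_num) ht0.le, hκK]
    have h4 : (1 + t) ^ 4 ≤ 16 * t ^ 4 := by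
      calc (1 + t) ^ 4 ≤ (2 * t) ^ 4 := by gcongr; linarith
        _ = _ := by ring
    have h5 : t ^ (κ + 4) = t ^ κ * t ^ 4 := by
      rw [Real.rpow_add ht0]
      norm_num
    calc (#E : ℝ) ≤ _ := hE1
      _ = (C₀ ^ k * (((1 / 2 : ℝ) ^ (8 * k + 2))⁻¹)) * (1 + t) ^ 4 *
          (p : ℝ) ^ ((1 / 2 : ℝ) ^ k) * m := by ring
      _ = 4 * K ^ k * (1 + t) ^ 4 * (p : ℝ) ^ ((1 / 2 : ℝ) ^ k) * m := by rw [h2]
      _ ≤ 4 * (K * t ^ κ) * (16 * t ^ 4) * 3 * m := by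
          gcongr
      _ = _ := by rw [h5]; ring
  -- the size of `L`
  have htκ : 1 ≤ t ^ (κ + 4) := Real.one_le_rpow ht1 (by linarith)
  have hL1 : (#E : ℝ) + 1 ≤ L / 3 := by
    have h1 : t ^ (κ + 6) = t ^ (κ + 4) * t ^ 2 := by
      rw [show κ + 6 = κ + 4 + 2 by ring, Real.rpow_add ht0]
      norm_num
    have h2 : 3 * (192 * K + 1) ≤ t ^ 2 := by nlinarith
    have h3 : 1 ≤ t ^ (κ + 4) * m := by nlinarith
    rw [hL, h1]
    have h4 : (t ^ (κ + 4) * m) * (3 * (192 * K + 1)) ≤ (t ^ (κ + 4) * m) * t ^ 2 :=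
      mul_le_mul_of_nonneg_left h2 (by linarith)
    nlinarith
  have hEn : (0 : ℝ) ≤ #E := Nat.cast_nonneg _
  have hL3 : 3 ≤ L := by linarith
  have hLp : 0 < L := by linarith
  set J : ℕ := ⌊L / 3⌋₊ with hJ
  have hJ1 : (J : ℝ) ≤ L / 3 := Nat.floor_le (by positivity)
  have hJ2 : L / 3 < J + 1 := Nat.lt_floor_add_one _
  have hJE : #E < J := by
    have : (#E : ℝ) < J := by linarith
    exact_mod_cast this
  have hη1 : (L ^ 2)⁻¹ ≤ 1 := by
    refine inv_le_one_of_one_le₀ ?_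
    nlinarith
  set c : ℝ := Real.sqrt 8 / L with hc
  have hc0 : 0 < c := by positivity
  have hc2 : c ^ 2 = 8 * (L ^ 2)⁻¹ := by
    rw [hc, div_pow, Real.sq_sqrt (by norm_num)]
    rfl
  -- the chain of sets
  let S : ℕ → Finset (DirichletCharacter ℂ p) := fun i => univ.filter (Near A B (i * c))
  have hS : ∀ i χ, χ ∈ S i ↔ Near A B (i * c) χ := fun i χ => by simp [S]
  have hSmono : ∀ i, S i ⊆ S (i + 1) := by
    intro i χ hχ
    rw [hS] at hχ ⊢
    refine hχ.mono (by positivity) ?_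
    push_cast
    nlinarith
  have hS1 : ∀ i, 1 ∈ S i := fun i => (hS i 1).2 ((near_one A B).mono le_rfl (by positivity))
  have hSE : ∀ i, i ≤ J → S i ⊆ E := by
    intro i hi χ hχ
    rw [hS] at hχ
    by_contra hχE
    refine hχ.not_NB hA hB ?_ (hE2 χ hχE)
    have h1 : (i : ℝ) ≤ L / 3 := le_trans (by exact_mod_cast hi) hJ1
    have h2 : (i : ℝ) ^ 2 ≤ (L / 3) ^ 2 := pow_le_pow_left₀ (Nat.cast_nonneg _) h1 2
    rw [mul_pow, hc2]
    have h3 : (i : ℝ) ^ 2 * (8 * (L ^ 2)⁻¹) ≤ (L / 3) ^ 2 * (8 * (L ^ 2)⁻¹) := by gcongr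
    have h4 : (L / 3) ^ 2 * (8 * (L ^ 2)⁻¹) = 8 / 9 := by
      field_simp
      norm_num
    rw [h4] at h3
    linarith
  obtain ⟨i, hi1, hiJ, hi⟩ : ∃ i, 1 ≤ i ∧ i < J ∧ S (i + 1) ⊆ S i := by
    by_contra hno
    push Not at hno
    have h1 : ∀ i, 1 ≤ i → i ≤ J → i ≤ #(S i) := by
      intro i hi
      induction i, hi using Nat.le_induction with
      | base => intro _; exact card_pos.2 ⟨1, hS1 1⟩
      | succ i hi ih =>
        intro hiJ
        have h2 := ih (by omega)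
        have h3 : S i ⊂ S (i + 1) := ⟨hSmono i, hno i hi (by omega)⟩
        have h4 := card_lt_card h3
        omega
    have h5 := h1 J (by omega) le_rfl
    have h6 := card_le_card (hSE J le_rfl)
    omega
  have hSi : S (i + 1) = S i := Subset.antisymm hi (hSmono i)
  set H : Subgroup (DirichletCharacter ℂ p) := MulAction.stabilizer (DirichletCharacter ℂ p) (S i)
    with hH
  have hHS : (H : Set (DirichletCharacter ℂ p)) ⊆ (S i : Set (DirichletCharacter ℂ p)) := by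
    intro g hg
    have h1 : g • S i = S i := MulAction.mem_stabilizer_iff.1 hg
    have h2 : g • (1 : DirichletCharacter ℂ p) ∈ g • S i := Finset.smul_mem_smul_finset (hS1 i)
    rw [h1, smul_eq_mul, mul_one] at h2
    exact h2
  have hHcard : Nat.card H ≤ #(S i) := by
    have h1 := Set.ncard_le_ncard hHS (S i).finite_toSet
    rwa [Set.ncard_coe_finset] at h1
  refine ⟨Nat.card H, Nat.card_pos, ?_, ?_⟩
  · have h1 : Nat.card H ≤ #E := hHcard.trans (card_le_card (hSE i hiJ.le))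
    have h2 : (Nat.card H : ℝ) ≤ #E := by exact_mod_cast h1
    linarith
  · intro χ hχ
    by_contra hcon
    apply hχ
    have hn : Near A B c χ := near_of_not_NB hη1 hc2.ge hcon
    have hmem : χ ∈ H := by
      rw [hH, MulAction.mem_stabilizer_iff]
      refine eq_of_subset_of_card_le ?_ (by rw [card_smul_finset])
      intro ψ hψ
      obtain ⟨φ, hφ, rfl⟩ := Finset.mem_smul_finset.1 hψ
      rw [hS] at hφ
      rw [← hSi, hS, smul_eq_mul, mul_comm χ]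
      have hi0 : 0 < (i : ℝ) * c := by
        have : (0 : ℝ) < i := by exact_mod_cast hi1
        positivity
      have h1 := hφ.mul hn hi0 hc0
      have h2 : ((i + 1 : ℕ) : ℝ) * c = i * c + c := by push_cast; ring
      rw [h2]
      exact h1
    have h1 : (⟨χ, hmem⟩ : H) ^ Nat.card H = 1 := pow_card_eq_one'
    have h2 := congrArg Subtype.val h1
    rwa [Subgroup.coe_pow, Subgroup.coe_one] at h2

/-- EV for characters of large order -/
theorem specEV_order (h : SpecEV) : ∃ C : ℝ, 1 ≤ C ∧ ∃ P : ℕ, ∀ (p : ℕ) [Fact p.Prime], P ≤ p →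
    ∀ A B : Finset (ZMod p), 64 ≤ #A → 64 ≤ #B →
      ∀ L : ℝ, L = Real.log p ^ C * max 1 ((p : ℝ) / (#A * #B)) →
      ∀ χ : DirichletCharacter ℂ p, L ≤ orderOf χ →
        NB χ A B ((1 - (L ^ 2)⁻¹) * Real.sqrt ((#A : ℝ) * #B)) := by
  obtain ⟨C, hC, P, hP⟩ := h
  refine ⟨C, hC, P, fun p _ hp A B hA hB L hL χ hχ => ?_⟩
  obtain ⟨d, hd1, hdL, hd⟩ := hP p hp A B hA hB L hL
  refine hd χ fun h => ?_
  have h1 : d < orderOf χ := by
    have : (d : ℝ) < orderOf χ := by linarith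
    exact_mod_cast this
  exact absurd (Nat.le_of_dvd (by omega) (orderOf_dvd_of_pow_eq_one h)) (by omega)

end MPcb27.CO
end

section
/-!
# MP_cb27ba_nt, corollaries of theorem PH: sumsets
-/
set_option autoImplicit false

namespace MPcb27.CO

open Finset Matrix
open scoped Pointwise
open MPcb27.TU MPcb27.MB MPcb27.PG MPcb27.PG.FINPG MPcb27.PH

/-- theorem PH for one family with `m = 1`, `A = B` -/
lemma ph_one (h : FinalPH) (δ : ℝ) (hδ : 0 < δ) : ∃ τ : ℝ, 0 < τ ∧ ∃ P : ℕ,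
    ∀ (p : ℕ) [Fact p.Prime], P ≤ p → ∀ (A C : Finset (ZMod p)) (Φ : Finset (M2 p)),
      (p : ℝ) ^ (1 / 2 - τ) ≤ #A → (∀ φ ∈ Φ, φ.det ≠ 0) →
      (∀ φ ∈ Φ, ∀ ψ ∈ Φ, ∀ c : ZMod p, ψ = c • φ → ψ = φ) →
      (p : ℝ) ^ δ ≤ #Φ → (p : ℝ) ^ δ ≤ #C →
      (∀ r s : M2 p, NonSc s → 2 ≤ #(Φ.filter fun φ => φ * r = s * φ) →
        (p : ℝ) ^ (1 / 2 + δ) * ET s A ≤ ((#Φ : ℝ) * #C) ^ 4) →
      (∀ a ∈ A, ∃ φ ∈ Φ, ∃ c ∈ C, den φ c ≠ 0 ∧ mob φ c = a) →
      ∀ χ : MulChar (ZMod p) ℂ, χ ≠ 1 →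
        NB χ A A ((p : ℝ) ^ (-τ) * Real.sqrt ((#Φ : ℝ) * #C * #A)) := by
  obtain ⟨τ, hτ, P, hP⟩ := h δ hδ
  refine ⟨τ, hτ, P, ?_⟩
  intro p _ hp A C Φ hA h1 h2 h3 h4 h5 h6 χ hχ
  have hp0 : (0 : ℝ) < p := by exact_mod_cast (Fact.out : p.Prime).pos
  have hrep : ∀ a ∈ A, 1 ≤ rp Φ C a := by
    intro a ha
    obtain ⟨φ, hφ, c, hc, hd, hm⟩ := h6 a ha
    rw [Nat.one_le_iff_ne_zero, ← Nat.pos_iff_ne_zero, rp, card_pos]
    exact ⟨(φ, c), mem_filter.2 ⟨mem_product.2 ⟨hφ, hc⟩, hd, hm⟩⟩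
  have h7 := hP p hp A A {(Φ, C, 1)} hA ?_ ?_ χ hχ
  · rw [sum_singleton] at h7
    simpa using h7
  · intro q hq
    rw [mem_singleton] at hq
    subst hq
    refine ⟨h1, h2, h3, h4, le_rfl, ?_⟩
    intro r s hs hc
    have e1 : (A.filter fun a => 1 ≤ rp Φ C a) = A := filter_true_of_mem hrep
    have hc' : (1 : ℝ) < #(Φ.filter fun φ => φ * r = s * φ) := by
      refine lt_of_le_of_lt ?_ hc
      calc (1 : ℝ) = (p : ℝ) ^ (-δ) * (p : ℝ) ^ δ := by
            rw [← Real.rpow_add hp0, neg_add_cancel, Real.rpow_zero]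
        _ ≤ (p : ℝ) ^ (-δ) * #Φ := by gcongr
    have h8 := h5 r s hs (by exact_mod_cast hc')
    rw [e1]
    simpa using h8
  · intro a ha
    exact ⟨(Φ, C, 1), mem_singleton_self _, hrep a ha⟩

variable {p : ℕ} [Fact p.Prime]

/-- translations -/
def tr (d : ZMod p) : M2 p := !![1, d; 0, 1]

lemma tr_inj : Function.Injective (tr (p := p)) := by
  intro d e h
  have := congrFun (congrFun h 0) 1
  simpa [tr] using this

/-- the energy for translations -/
lemma et_tr {s : M2 p} (hs : NonSc s) (h1 : s 1 0 = 0) (h2 : s 0 0 = s 1 1) (A : Finset (ZMod p)) :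
    ET s A ≤ A.addEnergy A := by
  classical
  have h3 : s 0 1 ≠ 0 := by
    intro h3
    refine hs (s 0 0) ?_
    ext i j
    fin_cases i <;> fin_cases j <;> simp [h1, h3, ← h2]
  unfold ET Finset.addEnergy
  refine card_le_card_of_injOn (fun q => (q.1, (q.2.2, q.2.1))) ?_ ?_
  · rintro ⟨⟨a, b⟩, ⟨c, d⟩⟩ hq
    simp only [coe_filter, Set.mem_ofPred_eq, mem_product] at hq ⊢
    obtain ⟨⟨⟨ha, hb⟩, hc, hd⟩, t, ht, hc1, hm1, hm2⟩ := hq
    refine ⟨⟨⟨ha, hb⟩, hd, hc⟩, ?_⟩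
    have e1 := congrFun (congrFun hc1 0) 0
    have e2 := congrFun (congrFun hc1 0) 1
    simp only [Matrix.mul_apply, Fin.sum_univ_two] at e1 e2
    have e3 : t 1 0 = 0 := by
      have : s 0 1 * t 1 0 = 0 := by
        rw [h1] at e1
        linear_combination -e1
      rcases mul_eq_zero.1 this with h | h
      · exact absurd h h3
      · exact h
    have e4 : t 0 0 = t 1 1 := by
      have : s 0 1 * (t 0 0 - t 1 1) = 0 := by
        rw [← h2] at e2
        linear_combination e2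
      rcases mul_eq_zero.1 this with h | h
      · exact absurd h h3
      · exact sub_eq_zero.1 h
    unfold mp den mob at hm1 hm2
    rw [e3, e4, zero_mul, zero_add] at hm1 hm2
    obtain ⟨hm0, hm1⟩ := hm1
    obtain ⟨-, hm2⟩ := hm2
    have e5 : t 1 1 * (t 1 1)⁻¹ = 1 := mul_inv_cancel₀ hm0
    rw [← hm1, ← hm2]
    linear_combination (c - a) * e5
  · rintro ⟨⟨a, b⟩, ⟨c, d⟩⟩ - ⟨⟨a', b'⟩, ⟨c', d'⟩⟩ - h
    simp only [Prod.mk.injEq] at h ⊢
    tauto

/-- two translations -/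
lemma two_tr {r s : M2 p} {D : Finset (ZMod p)}
    (h : 2 ≤ #((D.image tr).filter fun φ => φ * r = s * φ)) : s 1 0 = 0 ∧ s 0 0 = s 1 1 := by
  obtain ⟨φ, hφ, ψ, hψ, hne⟩ := one_lt_card.1 h
  rw [mem_filter, mem_image] at hφ hψ
  obtain ⟨⟨d, -, rfl⟩, h1⟩ := hφ
  obtain ⟨⟨e, -, rfl⟩, h2⟩ := hψ
  have hde : d - e ≠ 0 := sub_ne_zero.2 fun h => hne (by rw [h])
  have a1 := congrFun (congrFun h1 1) 1
  have a2 := congrFun (congrFun h2 1) 1
  have b1 := congrFun (congrFun h1 0) 1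
  have b2 := congrFun (congrFun h2 0) 1
  simp [tr, Matrix.mul_apply, Fin.sum_univ_two] at a1 a2 b1 b2
  have c1 : s 1 0 = 0 := by
    have : (d - e) * s 1 0 = 0 := by linear_combination a2 - a1
    rcases mul_eq_zero.1 this with h | h
    · exact absurd h hde
    · exact h
  refine ⟨c1, ?_⟩
  have : (d - e) * (s 0 0 - s 1 1) = 0 := by
    rw [c1] at a1 a2
    linear_combination b2 - b1 + (d - e) * a1
  rcases mul_eq_zero.1 this with h | h
  · exact absurd h hde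
  · exact sub_eq_zero.1 h

/-- **ME1** -/
theorem specME1 (h : FinalPH) : SpecME1 := by
  intro δ hδ
  obtain ⟨τ₁, hτ₁, P, hP⟩ := ph_one h (δ / 2) (by linarith)
  refine ⟨min (τ₁ / 2) (δ / 2), lt_min (by linarith) (by linarith), P, ?_⟩
  intro p _ hp A C D hA hC hD hAD hCD hE χ hχ
  set τ := min (τ₁ / 2) (δ / 2) with hτ
  have hτ1 : τ ≤ τ₁ / 2 := min_le_left _ _
  have hτ2 : τ ≤ δ / 2 := min_le_right _ _
  have hτ0 : 0 < τ := lt_min (by linarith) (by linarith)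
  have hp1 : (1 : ℝ) ≤ p := by exact_mod_cast (Fact.out : p.Prime).one_lt.le
  have hp0 : (0 : ℝ) < p := by linarith
  have hA0 : (0 : ℝ) < #A := lt_of_lt_of_le (by positivity) hA
  have hAne : A.Nonempty := by
    rw [← card_pos]
    exact_mod_cast hA0
  have hmono : (p : ℝ) ^ (δ / 2) ≤ (p : ℝ) ^ δ := Real.rpow_le_rpow_of_exponent_le hp1 (by linarith)
  have hcard : #(D.image tr) = #D := card_image_of_injective _ tr_inj
  have hle : (#A : ℝ) ≤ #D * #C := by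
    have h1 : #A ≤ #C * #D := (card_le_card hAD).trans (card_add_le)
    rw [mul_comm] at h1
    exact_mod_cast h1
  have hN := hP p hp A C (D.image tr) ?_ ?_ ?_ ?_ ?_ ?_ ?_ χ hχ
  · rw [hcard] at hN
    refine q1_of_NB (t₁ := τ₁) (σ := τ) (S := #D * #C) hAne hτ0 (by linarith) ?_ hN
    rw [mul_comm]
    exact hCD
  · exact (Real.rpow_le_rpow_of_exponent_le hp1 (by linarith)).trans hA
  · intro φ hφ
    rw [mem_image] at hφ
    obtain ⟨d, -, rfl⟩ := hφ
    simp [tr, Matrix.det_fin_two]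
  · intro φ hφ ψ hψ c hc
    rw [mem_image] at hφ hψ
    obtain ⟨d, -, rfl⟩ := hφ
    obtain ⟨e, -, rfl⟩ := hψ
    have h1 := congrFun (congrFun hc 0) 0
    simp [tr] at h1
    rw [← h1, one_smul] at hc
    exact hc
  · rw [hcard]
    exact hmono.trans hD
  · exact hmono.trans hC
  · intro r s hs h2
    obtain ⟨h3, h4⟩ := two_tr h2
    have h5 : (ET s A : ℝ) ≤ A.addEnergy A := by exact_mod_cast et_tr hs h3 h4 A
    rw [hcard]
    calc (p : ℝ) ^ (1 / 2 + δ / 2) * ET s A ≤ (p : ℝ) ^ (1 / 2 + δ / 2) * A.addEnergy A := by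
          gcongr
      _ = (p : ℝ) ^ (1 / 2 - δ / 2) * ((p : ℝ) ^ δ * A.addEnergy A) := by
          rw [← mul_assoc, ← Real.rpow_add hp0]
          congr 2
          ring
      _ ≤ (p : ℝ) ^ (1 / 2 - δ / 2) * (#A : ℝ) ^ 3 := by gcongr
      _ ≤ #A * (#A : ℝ) ^ 3 := by
          gcongr
          exact (Real.rpow_le_rpow_of_exponent_le hp1 (by linarith)).trans hA
      _ = (#A : ℝ) ^ 4 := by ring
      _ ≤ ((#D : ℝ) * #C) ^ 4 := by gcongr
  · intro a ha
    obtain ⟨c, hc, d, hd, rfl⟩ := mem_add.1 (hAD ha)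
    refine ⟨tr d, mem_image_of_mem _ hd, c, hc, ?_, ?_⟩
    · simp [tr, den]
    · simp [tr, mob]

end MPcb27.CO
end

section
/-!
# MP_cb27ba_nt, corollaries of theorem PH: product sets
-/
set_option autoImplicit false

namespace MPcb27.CO

open Finset Matrix
open scoped Pointwise
open MPcb27.TU MPcb27.MB MPcb27.PG MPcb27.PG.FINPG MPcb27.PH

/-- powers of large `p` are large -/
lemma large (x : ℝ) (hx : 0 < x) (M : ℝ) : ∃ P : ℕ, ∀ p : ℕ, P ≤ p → M ≤ (p : ℝ) ^ x := by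
  have h := ((tendsto_rpow_atTop hx).comp tendsto_natCast_atTop_atTop).eventually_ge_atTop M
  obtain ⟨P, hP⟩ := Filter.eventually_atTop.1 h
  exact ⟨P, fun p hp => hP p hp⟩

variable {p : ℕ} [Fact p.Prime]

/-- a small part of `A` is harmless -/
lemma q1_split {χ : MulChar (ZMod p) ℂ} {A A' : Finset (ZMod p)} {τ : ℝ} (hA : A.Nonempty)
    (hτ : 0 < τ) (hp : 64 ≤ (p : ℝ) ^ τ) (hAA : A' ⊆ A)
    (h1 : ‖∑ a ∈ A', ∑ b ∈ A', χ (a - b)‖ ≤ (p : ℝ) ^ (-(3 * τ)) * (#A : ℝ) ^ 2)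
    (h2 : 2 * (#(A \ A') : ℝ) ≤ (p : ℝ) ^ (-(3 * τ)) * #A) :
    ‖∑ a ∈ A, ∑ b ∈ A, χ (a - b)‖ < (#A : ℝ) ^ (2 - τ) := by
  have hp1 : (1 : ℝ) < p := by exact_mod_cast (Fact.out : p.Prime).one_lt
  have hp0 : (0 : ℝ) < p := by linarith
  refine q1_of_le (t := 2 * τ) hA hτ (by linarith) ((sum_split χ hAA).trans ?_)
  have h3 : (p : ℝ) ^ (-(3 * τ)) = (p : ℝ) ^ (-(2 * τ)) * ((p : ℝ) ^ τ)⁻¹ := by
    rw [← Real.rpow_neg hp0.le, ← Real.rpow_add hp0]
    congr 1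
    ring
  have h4 : ((p : ℝ) ^ τ)⁻¹ ≤ 1 / 2 := by
    rw [inv_le_comm₀ (by positivity) (by norm_num)]
    linarith
  have h5 : (p : ℝ) ^ (-(3 * τ)) ≤ (p : ℝ) ^ (-(2 * τ)) * (1 / 2) := by
    rw [h3]
    gcongr
  have h6 : (0 : ℝ) ≤ #A := Nat.cast_nonneg _
  calc _ ≤ (p : ℝ) ^ (-(3 * τ)) * (#A : ℝ) ^ 2 + (p : ℝ) ^ (-(3 * τ)) * #A * #A := by gcongr
    _ = (p : ℝ) ^ (-(3 * τ)) * (2 * (#A : ℝ) ^ 2) := by ring
    _ ≤ ((p : ℝ) ^ (-(2 * τ)) * (1 / 2)) * (2 * (#A : ℝ) ^ 2) := by gcongr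
    _ = _ := by ring

/-- dilations -/
def dl (d : ZMod p) : M2 p := !![d, 0; 0, 1]

lemma dl_inj : Function.Injective (dl (p := p)) := by
  intro d e h
  have := congrFun (congrFun h 0) 0
  simpa [dl] using this

/-- the energy for dilations -/
lemma et_dl {s : M2 p} (hs : NonSc s) (h1 : s 1 0 = 0) (h2 : s 0 1 = 0) (A : Finset (ZMod p)) :
    ET s A ≤ A.mulEnergy A := by
  classical
  have h3 : s 0 0 - s 1 1 ≠ 0 := by
    intro h3
    refine hs (s 0 0) ?_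
    ext i j
    fin_cases i <;> fin_cases j <;> simp [h1, h2, ← sub_eq_zero.1 h3]
  unfold ET Finset.mulEnergy
  refine card_le_card_of_injOn (fun q => (q.1, (q.2.2, q.2.1))) ?_ ?_
  · rintro ⟨⟨a, b⟩, ⟨c, d⟩⟩ hq
    simp only [coe_filter, Set.mem_ofPred_eq, mem_product] at hq ⊢
    obtain ⟨⟨⟨ha, hb⟩, hc, hd⟩, t, ht, hc1, hm1, hm2⟩ := hq
    refine ⟨⟨⟨ha, hb⟩, hd, hc⟩, ?_⟩
    have e1 := congrFun (congrFun hc1 1) 0
    have e2 := congrFun (congrFun hc1 0) 1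
    simp only [Matrix.mul_apply, Fin.sum_univ_two] at e1 e2
    have e3 : t 1 0 = 0 := by
      have : (s 0 0 - s 1 1) * t 1 0 = 0 := by
        rw [h1] at e1
        linear_combination e1
      rcases mul_eq_zero.1 this with h | h
      · exact absurd h h3
      · exact h
    have e4 : t 0 1 = 0 := by
      have : (s 0 0 - s 1 1) * t 0 1 = 0 := by
        rw [h2] at e2
        linear_combination -e2
      rcases mul_eq_zero.1 this with h | h
      · exact absurd h h3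
      · exact h
    unfold mp den mob at hm1 hm2
    rw [e3, e4, zero_mul, zero_add] at hm1 hm2
    obtain ⟨hm0, hm1⟩ := hm1
    obtain ⟨-, hm2⟩ := hm2
    rw [← hm1, ← hm2]
    ring
  · rintro ⟨⟨a, b⟩, ⟨c, d⟩⟩ - ⟨⟨a', b'⟩, ⟨c', d'⟩⟩ - h
    simp only [Prod.mk.injEq] at h ⊢
    tauto

/-- two dilations -/
lemma two_dl {r s : M2 p} {D : Finset (ZMod p)} (h0 : 0 ∉ D)
    (h : 2 ≤ #((D.image dl).filter fun φ => φ * r = s * φ)) : s 1 0 = 0 ∧ s 0 1 = 0 := by
  obtain ⟨φ, hφ, ψ, hψ, hne⟩ := one_lt_card.1 h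
  rw [mem_filter, mem_image] at hφ hψ
  obtain ⟨⟨d, hd, rfl⟩, h1⟩ := hφ
  obtain ⟨⟨e, he, rfl⟩, h2⟩ := hψ
  have hd0 : d ≠ 0 := fun h => h0 (h ▸ hd)
  have hde : d - e ≠ 0 := sub_ne_zero.2 fun h => hne (by rw [h])
  have a1 := congrFun (congrFun h1 1) 0
  have a2 := congrFun (congrFun h2 1) 0
  have b1 := congrFun (congrFun h1 0) 1
  have b2 := congrFun (congrFun h2 0) 1
  simp [dl, Matrix.mul_apply, Fin.sum_univ_two] at a1 a2 b1 b2
  -- r10 = s10 d = s10 e; d r01 = s01 = e r01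
  constructor
  · have : (d - e) * s 1 0 = 0 := by linear_combination a2 - a1
    rcases mul_eq_zero.1 this with h | h
    · exact absurd h hde
    · exact h
  · have : (d - e) * r 0 1 = 0 := by linear_combination b1 - b2
    rcases mul_eq_zero.1 this with h | h
    · exact absurd h hde
    · rw [← b1, h, mul_zero]

/-- **ME2** -/
theorem specME2 (h : FinalPH) : SpecME2 := by
  intro δ hδ
  obtain ⟨τ₁, hτ₁, P, hP⟩ := ph_one h (δ / 2) (by linarith)
  set τ := min (τ₁ / 4) (min (δ / 4) (1 / 16)) with hτ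
  have hτ1 : τ ≤ τ₁ / 4 := min_le_left _ _
  have hτ2 : τ ≤ δ / 4 := (min_le_right _ _).trans (min_le_left _ _)
  have hτ3 : τ ≤ 1 / 16 := (min_le_right _ _).trans (min_le_right _ _)
  have hτ0 : 0 < τ := lt_min (by linarith) (lt_min (by linarith) (by norm_num))
  obtain ⟨P₂, hP₂⟩ := large τ hτ0 64
  refine ⟨τ, hτ0, max P P₂, ?_⟩
  intro p _ hp A C D hA hC hD hAD hCD hE χ hχ
  have hp64 := hP₂ p ((le_max_right _ _).trans hp)
  have hp1 : (1 : ℝ) ≤ p := by exact_mod_cast (Fact.out : p.Prime).one_lt.le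
  have hp0 : (0 : ℝ) < p := by linarith
  have hge : ∀ x : ℝ, τ ≤ x → 64 ≤ (p : ℝ) ^ x := fun x hx =>
    hp64.trans (Real.rpow_le_rpow_of_exponent_le hp1 hx)
  have hA64 : (64 : ℝ) ≤ #A := (hge (1 / 2 - τ) (by linarith)).trans hA
  have hAne : A.Nonempty := by
    rw [← card_pos]
    have : (0 : ℝ) < #A := by linarith
    exact_mod_cast this
  set A' := A.erase 0 with hA'
  set D' := D.erase 0 with hD'
  have hA'1 : (#A : ℝ) ≤ #A' + 1 := by
    have h1 : #A ≤ #A' + 1 := by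
      have := pred_card_le_card_erase (s := A) (a := 0)
      rw [← hA'] at this
      omega
    exact_mod_cast h1
  have hD'1 : (#D : ℝ) ≤ #D' + 1 := by
    have h1 : #D ≤ #D' + 1 := by
      have := pred_card_le_card_erase (s := D) (a := 0)
      rw [← hD'] at this
      omega
    exact_mod_cast h1
  have hA'2 : (#A : ℝ) ≤ 2 * #A' := by linarith
  have hA'A : A' ⊆ A := erase_subset _ _
  have hA'3 : (#A' : ℝ) ≤ #A := by exact_mod_cast card_le_card hA'A
  have hD'3 : (#D' : ℝ) ≤ #D := by exact_mod_cast card_le_card (erase_subset _ _)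
  have hcard : #(D'.image dl) = #D' := card_image_of_injective _ dl_inj
  have hsub : A' ⊆ C * D' := by
    intro a ha
    rw [hA', mem_erase] at ha
    obtain ⟨c, hc, d, hd, rfl⟩ := mem_mul.1 (hAD ha.2)
    refine mem_mul.2 ⟨c, hc, d, mem_erase.2 ⟨?_, hd⟩, rfl⟩
    rintro rfl
    exact ha.1 (mul_zero _)
  have hle : (#A' : ℝ) ≤ #D' * #C := by
    have h1 : #A' ≤ #C * #D' := (card_le_card hsub).trans (card_mul_le)
    rw [mul_comm] at h1
    exact_mod_cast h1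
  have hN := hP p ((le_max_left _ _).trans hp) A' C (D'.image dl) ?_ ?_ ?_ ?_ ?_ ?_ ?_ χ hχ
  · rw [hcard] at hN
    refine q1_split hAne hτ0 hp64 hA'A ?_ ?_
    · refine (sum_of_NB hN).trans ?_
      have h1 : Real.sqrt ((#D' : ℝ) * #C * #A') ≤ (p : ℝ) ^ (τ / 2) * #A := by
        rw [Real.sqrt_le_left (by positivity), mul_pow, ← Real.rpow_natCast ((p : ℝ) ^ (τ / 2)),
          ← Real.rpow_mul hp0.le]
        push_cast
        rw [div_mul_cancel₀ _ (two_ne_zero)]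
        calc (#D' : ℝ) * #C * #A' ≤ #D * #C * #A := by gcongr
          _ = (#C * #D) * #A := by ring
          _ ≤ ((p : ℝ) ^ τ * #A) * #A := by gcongr
          _ = _ := by ring
      calc (p : ℝ) ^ (-τ₁) * Real.sqrt ((#D' : ℝ) * #C * #A') * #A' ≤
            (p : ℝ) ^ (-τ₁) * ((p : ℝ) ^ (τ / 2) * #A) * #A := by gcongr
        _ = (p : ℝ) ^ (-τ₁ + τ / 2) * (#A : ℝ) ^ 2 := by
            rw [Real.rpow_add hp0]
            ring
        _ ≤ (p : ℝ) ^ (-(3 * τ)) * (#A : ℝ) ^ 2 := by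
            gcongr
            linarith
    · have h1 : #(A \ A') ≤ 1 := by
        rw [hA', card_le_one]
        intro a ha b hb
        simp only [mem_sdiff, mem_erase, not_and] at ha hb
        have ha2 : a = 0 := by
          by_contra h
          exact ha.2 h ha.1
        have hb2 : b = 0 := by
          by_contra h
          exact hb.2 h hb.1
        rw [ha2, hb2]
      have h2 : (#(A \ A') : ℝ) ≤ 1 := by exact_mod_cast h1
      calc 2 * (#(A \ A') : ℝ) ≤ 64 := by linarith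
        _ ≤ (p : ℝ) ^ (1 / 2 - 4 * τ) := hge _ (by linarith)
        _ = (p : ℝ) ^ (-(3 * τ)) * (p : ℝ) ^ (1 / 2 - τ) := by
            rw [← Real.rpow_add hp0]
            congr 1
            ring
        _ ≤ _ := by gcongr
  · -- the size of `A'`
    have h1 : (p : ℝ) ^ (1 / 2 - τ₁) * 64 ≤ (p : ℝ) ^ (1 / 2 - τ) := by
      calc (p : ℝ) ^ (1 / 2 - τ₁) * 64 ≤ (p : ℝ) ^ (1 / 2 - τ₁) * (p : ℝ) ^ (τ₁ - τ) := by
            gcongr
            exact hge _ (by linarith)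
        _ = _ := by
            rw [← Real.rpow_add hp0]
            congr 1
            ring
    have h2 : (0 : ℝ) ≤ (p : ℝ) ^ (1 / 2 - τ₁) := by positivity
    linarith
  · intro φ hφ
    rw [mem_image] at hφ
    obtain ⟨d, hd, rfl⟩ := hφ
    simpa [dl, Matrix.det_fin_two] using ne_of_mem_erase hd
  · intro φ hφ ψ hψ c hc
    rw [mem_image] at hφ hψ
    obtain ⟨d, -, rfl⟩ := hφ
    obtain ⟨e, -, rfl⟩ := hψ
    have h1 := congrFun (congrFun hc 1) 1
    simp [dl] at h1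
    rw [← h1, one_smul] at hc
    exact hc
  · rw [hcard]
    have h1 : (p : ℝ) ^ (δ / 2) * 64 ≤ (p : ℝ) ^ δ := by
      calc (p : ℝ) ^ (δ / 2) * 64 ≤ (p : ℝ) ^ (δ / 2) * (p : ℝ) ^ (δ / 2) := by
            gcongr
            exact hge _ (by linarith)
        _ = _ := by
            rw [← Real.rpow_add hp0]
            congr 1
            ring
    have h2 : (64 : ℝ) ≤ (p : ℝ) ^ (δ / 2) := hge _ (by linarith)
    linarith
  · exact (Real.rpow_le_rpow_of_exponent_le hp1 (by linarith)).trans hC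
  · intro r s hs h2
    obtain ⟨h3, h4⟩ := two_dl (notMem_erase _ _) h2
    have h5 : (ET s A' : ℝ) ≤ A.mulEnergy A := by
      exact_mod_cast (et_dl hs h3 h4 A').trans (mulEnergy_mono hA'A hA'A)
    rw [hcard]
    have h6 : (p : ℝ) ^ (1 / 2 - δ / 2) * 64 ≤ #A := by
      calc (p : ℝ) ^ (1 / 2 - δ / 2) * 64 ≤ (p : ℝ) ^ (1 / 2 - δ / 2) * (p : ℝ) ^ (δ / 2 - τ) := by
            gcongr
            exact hge _ (by linarith)
        _ = (p : ℝ) ^ (1 / 2 - τ) := by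
            rw [← Real.rpow_add hp0]
            congr 1
            ring
        _ ≤ #A := hA
    calc (p : ℝ) ^ (1 / 2 + δ / 2) * ET s A' ≤ (p : ℝ) ^ (1 / 2 + δ / 2) * A.mulEnergy A := by
          gcongr
      _ = (p : ℝ) ^ (1 / 2 - δ / 2) * ((p : ℝ) ^ δ * A.mulEnergy A) := by
          rw [← mul_assoc, ← Real.rpow_add hp0]
          congr 2
          ring
      _ ≤ (p : ℝ) ^ (1 / 2 - δ / 2) * (#A : ℝ) ^ 3 := by gcongr
      _ ≤ (#A / 64) * (#A : ℝ) ^ 3 := by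
          gcongr
          linarith
      _ = (#A : ℝ) ^ 4 / 64 := by ring
      _ ≤ ((#A : ℝ) / 2) ^ 4 := by
          have : (0 : ℝ) ≤ (#A : ℝ) ^ 4 := by positivity
          rw [div_pow]
          norm_num
          linarith
      _ ≤ ((#D' : ℝ) * #C) ^ 4 := by
          gcongr
          linarith
  · intro a ha
    obtain ⟨c, hc, d, hd, rfl⟩ := mem_mul.1 (hsub ha)
    refine ⟨dl d, mem_image_of_mem _ hd, c, hc, ?_, ?_⟩
    · simp [dl, den]
    · simp [dl, mob, mul_comm]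

end MPcb27.CO
end

section
/-!
# MP_cb27ba_nt, corollaries of theorem PH: sets `C * D + E` and `(C + D)⁻¹ + E`
-/
set_option autoImplicit false

namespace MPcb27.CO

open Finset Matrix
open scoped Pointwise
open MPcb27.TU MPcb27.MB MPcb27.PG MPcb27.PG.FINPG MPcb27.PH

lemma sum_image_le' {α β : Type} [DecidableEq β] (s : Finset α) (f : α → β) (g : β → ℝ)
    (hg : ∀ b, 0 ≤ g b) : ∑ b ∈ s.image f, g b ≤ ∑ a ∈ s, g (f a) := by
  classical
  induction s using Finset.induction_on with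
  | empty => simp
  | insert a s ha ih =>
    rw [image_insert, sum_insert ha]
    by_cases h : f a ∈ s.image f
    · rw [insert_eq_of_mem h]
      linarith [hg (f a)]
    · rw [sum_insert h]
      linarith

lemma sum_union_le' {β : Type} [DecidableEq β] (s t : Finset β) (g : β → ℝ)
    (hg : ∀ b, 0 ≤ g b) : ∑ b ∈ s ∪ t, g b ≤ ∑ b ∈ s, g b + ∑ b ∈ t, g b := by
  rw [← sum_union_inter]
  linarith [sum_nonneg (s := s ∩ t) (fun b _ => hg b)]

variable {p : ℕ} [Fact p.Prime]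

/-- `c ↦ c d + e` -/
def af (q : ZMod p × ZMod p) : M2 p := !![q.1, q.2; 0, 1]

/-- `c ↦ 1 / (c + d) + e` -/
def ivm (q : ZMod p × ZMod p) : M2 p := !![q.2, q.2 * q.1 + 1; 1, q.1]

lemma af_inj : Function.Injective (af (p := p)) := by
  rintro ⟨d, e⟩ ⟨d', e'⟩ h
  have h1 := congrFun (congrFun h 0) 0
  have h2 := congrFun (congrFun h 0) 1
  simp [af] at h1 h2
  rw [h1, h2]

lemma ivm_inj : Function.Injective (ivm (p := p)) := by
  rintro ⟨d, e⟩ ⟨d', e'⟩ h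
  have h1 := congrFun (congrFun h 0) 0
  have h2 := congrFun (congrFun h 1) 1
  simp [ivm] at h1 h2
  rw [h1, h2]

omit [Fact p.Prime] in
/-- injective on the first coordinate -/
lemma card_fst {D E : Finset (ZMod p)} {P : Finset (ZMod p × ZMod p)} (hP : P ⊆ D ×ˢ E)
    (h : ∀ d e e', (d, e) ∈ P → (d, e') ∈ P → e = e') : #P ≤ #D := by
  refine card_le_card_of_injOn Prod.fst (fun x hx => (mem_product.1 (hP hx)).1) ?_
  rintro ⟨d, e⟩ h1 ⟨d', e'⟩ h2 h3
  simp only at h3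
  subst h3
  rw [h d e e' h1 h2]

omit [Fact p.Prime] in
/-- injective on the second coordinate -/
lemma card_snd {D E : Finset (ZMod p)} {P : Finset (ZMod p × ZMod p)} (hP : P ⊆ D ×ˢ E)
    (h : ∀ d d' e, (d, e) ∈ P → (d', e) ∈ P → d = d') : #P ≤ #E := by
  refine card_le_card_of_injOn Prod.snd (fun x hx => (mem_product.1 (hP hx)).2) ?_
  rintro ⟨d, e⟩ h1 ⟨d', e'⟩ h2 h3
  simp only at h3
  subst h3
  rw [h d d' e h1 h2]

lemma filter_image {D E : Finset (ZMod p)} (f : ZMod p × ZMod p → M2 p) (r s : M2 p) :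
    #(((D ×ˢ E).image f).filter fun φ => φ * r = s * φ) ≤
      #((D ×ˢ E).filter fun q => f q * r = s * f q) := by
  refine (card_le_card ?_).trans (card_image_le (f := f))
  intro φ hφ
  rw [mem_filter, mem_image] at hφ
  obtain ⟨⟨q, hq, rfl⟩, h⟩ := hφ
  exact mem_image_of_mem _ (mem_filter.2 ⟨hq, h⟩)

/-- few of the maps `c ↦ c d + e` -/
lemma cnt_af {D E : Finset (ZMod p)} {r s : M2 p} (h0 : 0 ∉ D) (hs : NonSc s) :
    #(((D ×ˢ E).image af).filter fun φ => φ * r = s * φ) ≤ #D ∨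
      #(((D ×ˢ E).image af).filter fun φ => φ * r = s * φ) ≤ #E := by
  have key : ∀ d e : ZMod p, (d, e) ∈ (D ×ˢ E).filter (fun q => af q * r = s * af q) →
      d ≠ 0 ∧ d * r 0 0 + e * r 1 0 = s 0 0 * d ∧ d * r 0 1 + e * r 1 1 = s 0 0 * e + s 0 1 ∧
        r 1 0 = s 1 0 * d ∧ r 1 1 = s 1 0 * e + s 1 1 := by
    intro d e h
    rw [mem_filter, mem_product] at h
    have a00 := congrFun (congrFun h.2 0) 0
    have a01 := congrFun (congrFun h.2 0) 1
    have a10 := congrFun (congrFun h.2 1) 0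
    have a11 := congrFun (congrFun h.2 1) 1
    simp [af, Matrix.mul_apply, Fin.sum_univ_two] at a00 a01 a10 a11
    exact ⟨fun h1 => h0 (h1 ▸ h.1.1), a00, a01, a10, a11⟩
  by_cases h1 : s 1 0 = 0
  · by_cases h2 : s 1 1 = s 0 0
    · right
      refine (filter_image _ _ _).trans (card_snd (filter_subset _ _) ?_)
      intro d d' e hd hd'
      obtain ⟨n1, -, b1, c1, e1⟩ := key d e hd
      obtain ⟨n2, -, b2, c2, e2⟩ := key d' e hd'
      rw [h1, zero_mul, zero_add] at e1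
      have h3 : s 0 1 ≠ 0 := by
        intro h3
        refine hs (s 0 0) ?_
        ext i j
        fin_cases i <;> fin_cases j <;> simp [h1, h2, h3]
      have f1 : d * r 0 1 = s 0 1 := by
        rw [e1, h2] at b1
        linear_combination b1
      have f2 : d' * r 0 1 = s 0 1 := by
        rw [e1, h2] at b2
        linear_combination b2
      have h4 : r 0 1 ≠ 0 := by
        intro h4
        rw [h4, mul_zero] at f1
        exact h3 f1.symm
      exact mul_right_cancel₀ h4 (f1.trans f2.symm)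
    · left
      refine (filter_image _ _ _).trans (card_fst (filter_subset _ _) ?_)
      intro d e e' hd hd'
      obtain ⟨n1, -, b1, c1, e1⟩ := key d e hd
      obtain ⟨n2, -, b2, c2, e2⟩ := key d e' hd'
      rw [h1, zero_mul, zero_add] at e1
      have h3 : s 1 1 - s 0 0 ≠ 0 := sub_ne_zero.2 h2
      rw [e1] at b1 b2
      refine mul_right_cancel₀ h3 ?_
      linear_combination b1 - b2
  · right
    refine (filter_image _ _ _).trans (card_snd (filter_subset _ _) ?_)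
    intro d d' e hd hd'
    obtain ⟨-, -, -, c1, -⟩ := key d e hd
    obtain ⟨-, -, -, c2, -⟩ := key d' e hd'
    exact mul_left_cancel₀ h1 (c1.symm.trans c2)

/-- few of the maps `c ↦ 1 / (c + d) + e` -/
lemma cnt_iv {D E : Finset (ZMod p)} {r s : M2 p} (hs : NonSc s) :
    #(((D ×ˢ E).image ivm).filter fun φ => φ * r = s * φ) ≤ #D ∨
      #(((D ×ˢ E).image ivm).filter fun φ => φ * r = s * φ) ≤ #E := by
  have key : ∀ d e : ZMod p, (d, e) ∈ (D ×ˢ E).filter (fun q => ivm q * r = s * ivm q) →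
      e * r 0 0 + (e * d + 1) * r 1 0 = s 0 0 * e + s 0 1 ∧
        r 0 0 + d * r 1 0 = s 1 0 * e + s 1 1 := by
    intro d e h
    rw [mem_filter, mem_product] at h
    have a00 := congrFun (congrFun h.2 0) 0
    have a10 := congrFun (congrFun h.2 1) 0
    simp [ivm, Matrix.mul_apply, Fin.sum_univ_two] at a00 a10
    exact ⟨a00, a10⟩
  by_cases h1 : s 1 0 = 0
  · by_cases h2 : r 1 0 = 0
    · left
      refine (filter_image _ _ _).trans (card_fst (filter_subset _ _) ?_)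
      intro d e e' hd hd'
      obtain ⟨b1, c1⟩ := key d e hd
      obtain ⟨b2, c2⟩ := key d e' hd'
      rw [h1, h2, mul_zero, add_zero, zero_mul, zero_add] at c1
      rw [h2, c1, mul_zero, add_zero] at b1 b2
      have h3 : s 1 1 - s 0 0 ≠ 0 := by
        intro h3
        have h4 : s 1 1 = s 0 0 := sub_eq_zero.1 h3
        have h5 : s 0 1 = 0 := by
          rw [h4] at b1
          linear_combination -b1
        refine hs (s 0 0) ?_
        ext i j
        fin_cases i <;> fin_cases j <;> simp [h1, h4, h5]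
      refine mul_right_cancel₀ h3 ?_
      linear_combination b1 - b2
    · right
      refine (filter_image _ _ _).trans (card_snd (filter_subset _ _) ?_)
      intro d d' e hd hd'
      obtain ⟨-, c1⟩ := key d e hd
      obtain ⟨-, c2⟩ := key d' e hd'
      rw [h1] at c1 c2
      refine mul_right_cancel₀ h2 ?_
      linear_combination c1 - c2
  · left
    refine (filter_image _ _ _).trans (card_fst (filter_subset _ _) ?_)
    intro d e e' hd hd'
    obtain ⟨-, c1⟩ := key d e hd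
    obtain ⟨-, c2⟩ := key d e' hd'
    refine mul_left_cancel₀ h1 ?_
    linear_combination c2 - c1

/-- the condition on cosets is void -/
lemma void {D E : Finset (ZMod p)} {δ : ℝ} {n : ℕ} (hD : (p : ℝ) ^ δ ≤ #D) (hE : (p : ℝ) ^ δ ≤ #E)
    (h : n ≤ #D ∨ n ≤ #E) : ¬ (p : ℝ) ^ (-δ) * ((#D : ℝ) * #E) < n := by
  have hp0 : (0 : ℝ) < p := by exact_mod_cast (Fact.out : p.Prime).pos
  have h1 : (p : ℝ) ^ (-δ) * (p : ℝ) ^ δ = 1 := by
    rw [← Real.rpow_add hp0, neg_add_cancel, Real.rpow_zero]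
  rw [not_lt]
  rcases h with h | h
  · calc (n : ℝ) ≤ #D := by exact_mod_cast h
      _ = (p : ℝ) ^ (-δ) * (#D * (p : ℝ) ^ δ) := by linear_combination (-(#D : ℝ)) * h1
      _ ≤ _ := by gcongr
  · calc (n : ℝ) ≤ #E := by exact_mod_cast h
      _ = (p : ℝ) ^ (-δ) * ((p : ℝ) ^ δ * #E) := by linear_combination (-(#E : ℝ)) * h1
      _ ≤ _ := by gcongr

/-- the triple of a set `C * D + E` -/
noncomputable def tF (q : Finset (ZMod p) × Finset (ZMod p) × Finset (ZMod p)) :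
    Finset (M2 p) × Finset (ZMod p) × ℕ := (((q.2.1.erase 0) ×ˢ q.2.2).image af, q.1, 1)

/-- the triple of a set `(C + D)⁻¹ + E` -/
noncomputable def tG (q : Finset (ZMod p) × Finset (ZMod p) × Finset (ZMod p)) :
    Finset (M2 p) × Finset (ZMod p) × ℕ := ((q.2.1 ×ˢ q.2.2).image ivm, q.1, 1)

/-- the good elements -/
def good (F G : Finset (Finset (ZMod p) × Finset (ZMod p) × Finset (ZMod p))) (a : ZMod p) :
    Prop :=
  (∃ q ∈ F, ∃ c ∈ q.1, ∃ d ∈ q.2.1, ∃ e ∈ q.2.2, d ≠ 0 ∧ c * d + e = a) ∨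
    ∃ q ∈ G, ∃ c ∈ q.1, ∃ d ∈ q.2.1, ∃ e ∈ q.2.2, c + d ≠ 0 ∧ (c + d)⁻¹ + e = a

/-- the others are in the sets `E` -/
lemma bad_mem {F G : Finset (Finset (ZMod p) × Finset (ZMod p) × Finset (ZMod p))} {a : ZMod p}
    (h : a ∈ (F.biUnion fun q => q.1 * q.2.1 + q.2.2) ∪
      (G.biUnion fun q => (q.1 + q.2.1)⁻¹ + q.2.2)) (hg : ¬ good F G a) :
    a ∈ (F ∪ G).biUnion fun q => q.2.2 := by
  rw [mem_union, mem_biUnion, mem_biUnion] at h
  rw [mem_biUnion]
  rcases h with ⟨q, hq, h⟩ | ⟨q, hq, h⟩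
  · obtain ⟨x, hx, e, he, rfl⟩ := mem_add.1 h
    obtain ⟨c, hc, d, hd, rfl⟩ := mem_mul.1 hx
    refine ⟨q, mem_union_left _ hq, ?_⟩
    by_cases h0 : d = 0
    · rw [h0, mul_zero, zero_add]
      exact he
    · exact absurd (Or.inl ⟨q, hq, c, hc, d, hd, e, he, h0, rfl⟩) hg
  · obtain ⟨x, hx, e, he, rfl⟩ := mem_add.1 h
    obtain ⟨y, hy, rfl⟩ := mem_inv.1 hx
    obtain ⟨c, hc, d, hd, rfl⟩ := mem_add.1 hy
    refine ⟨q, mem_union_right _ hq, ?_⟩
    by_cases h0 : c + d = 0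
    · rw [h0, _root_.inv_zero, zero_add]
      exact he
    · exact absurd (Or.inr ⟨q, hq, c, hc, d, hd, e, he, h0, rfl⟩) hg

/-- **ME3** -/
theorem specME3 (h : FinalPH) : SpecME3 := by
  classical
  intro δ hδ
  obtain ⟨τ₁, hτ₁, P, hP⟩ := h (δ / 2) (by linarith)
  set τ := min (τ₁ / 4) (min (δ / 4) (1 / 16)) with hτ
  have hτ1 : τ ≤ τ₁ / 4 := min_le_left _ _
  have hτ2 : τ ≤ δ / 4 := (min_le_right _ _).trans (min_le_left _ _)
  have hτ3 : τ ≤ 1 / 16 := (min_le_right _ _).trans (min_le_right _ _)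
  have hτ0 : 0 < τ := lt_min (by linarith) (lt_min (by linarith) (by norm_num))
  obtain ⟨P₂, hP₂⟩ := large τ hτ0 64
  refine ⟨τ, hτ0, max P P₂, ?_⟩
  intro p _ hp A F G hA hFG hcov hS χ hχ
  have hp64 := hP₂ p ((le_max_right _ _).trans hp)
  have hp1 : (1 : ℝ) ≤ p := by exact_mod_cast (Fact.out : p.Prime).one_lt.le
  have hp0 : (0 : ℝ) < p := by linarith
  have hge : ∀ x : ℝ, τ ≤ x → 64 ≤ (p : ℝ) ^ x := fun x hx =>
    hp64.trans (Real.rpow_le_rpow_of_exponent_le hp1 hx)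
  have hA64 : (64 : ℝ) ≤ #A := (hge (1 / 2 - τ) (by linarith)).trans hA
  have hAne : A.Nonempty := by
    rw [← card_pos]
    have : (0 : ℝ) < #A := by linarith
    exact_mod_cast this
  set A' := A.filter (good F G) with hA'
  have hA'A : A' ⊆ A := filter_subset _ _
  have hA'3 : (#A' : ℝ) ≤ #A := by exact_mod_cast card_le_card hA'A
  -- the bad elements
  have hEq : ∀ q ∈ F ∪ G, (#q.2.2 : ℝ) ≤ (p : ℝ) ^ (-(2 * δ)) * (#q.1 * #q.2.1 * #q.2.2) := by
    intro q hq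
    obtain ⟨h1, h2, h3⟩ := hFG q hq
    have h4 : (p : ℝ) ^ (-(2 * δ)) * ((p : ℝ) ^ δ * (p : ℝ) ^ δ) = 1 := by
      rw [← Real.rpow_add hp0, ← Real.rpow_add hp0, show -(2 * δ) + (δ + δ) = 0 by ring,
        Real.rpow_zero]
    calc (#q.2.2 : ℝ) = ((p : ℝ) ^ (-(2 * δ)) * ((p : ℝ) ^ δ * (p : ℝ) ^ δ)) * #q.2.2 := by
          rw [h4, one_mul]
      _ ≤ ((p : ℝ) ^ (-(2 * δ)) * (#q.1 * #q.2.1)) * #q.2.2 := by gcongr
      _ = _ := by ring
  have hbad : (#(A \ A') : ℝ) ≤ (p : ℝ) ^ (-(2 * δ)) * ((p : ℝ) ^ τ * #A) := by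
    have h1 : A \ A' ⊆ (F ∪ G).biUnion fun q => q.2.2 := by
      intro a ha
      rw [mem_sdiff, hA', mem_filter, not_and] at ha
      exact bad_mem (hcov ha.1) (ha.2 ha.1)
    have h2 : (#(A \ A') : ℝ) ≤ ∑ q ∈ F ∪ G, (#q.2.2 : ℝ) := by
      have := (card_le_card h1).trans card_biUnion_le
      exact_mod_cast this
    calc (#(A \ A') : ℝ) ≤ ∑ q ∈ F ∪ G, (#q.2.2 : ℝ) := h2
      _ ≤ ∑ q ∈ F ∪ G, (p : ℝ) ^ (-(2 * δ)) * (#q.1 * #q.2.1 * #q.2.2) := sum_le_sum hEq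
      _ = (p : ℝ) ^ (-(2 * δ)) * ∑ q ∈ F ∪ G, ((#q.1 : ℝ) * #q.2.1 * #q.2.2) := by rw [mul_sum]
      _ ≤ (p : ℝ) ^ (-(2 * δ)) * ((p : ℝ) ^ τ * #A) := by
          gcongr
          exact (sum_union_le' F G _ (fun _ => by positivity)).trans hS
  have hbad2 : 2 * (#(A \ A') : ℝ) ≤ (p : ℝ) ^ (-(3 * τ)) * #A := by
    calc 2 * (#(A \ A') : ℝ) ≤ 64 * ((p : ℝ) ^ (-(2 * δ)) * ((p : ℝ) ^ τ * #A)) := by
          have : (0 : ℝ) ≤ #(A \ A') := Nat.cast_nonneg _
          linarith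
      _ ≤ (p : ℝ) ^ (2 * δ - 4 * τ) * ((p : ℝ) ^ (-(2 * δ)) * ((p : ℝ) ^ τ * #A)) := by
          gcongr
          exact hge _ (by linarith)
      _ = _ := by
          rw [← mul_assoc, ← mul_assoc, ← Real.rpow_add hp0, ← Real.rpow_add hp0]
          congr 2
          ring
  have hA'2 : (#A : ℝ) ≤ 2 * #A' := by
    have h1 : (#A : ℝ) = #A' + #(A \ A') := by
      have := card_sdiff_add_card_eq_card hA'A
      rw [← this]
      push_cast
      ring
    have h2 : (p : ℝ) ^ (-(3 * τ)) * #A ≤ 1 * #A := by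
      gcongr
      rw [← Real.rpow_zero (p : ℝ)]
      exact Real.rpow_le_rpow_of_exponent_le hp1 (by linarith)
    linarith
  -- the family
  set FF : Finset (Finset (M2 p) × Finset (ZMod p) × ℕ) := F.image tF ∪ G.image tG with hFF
  have hFFS : ∑ q ∈ FF, (#q.1 : ℝ) * #q.2.1 / q.2.2 ≤ (p : ℝ) ^ τ * #A := by
    refine le_trans ?_ hS
    refine (sum_union_le' _ _ _ (fun _ => by positivity)).trans (add_le_add ?_ ?_)
    · refine (sum_image_le' _ _ _ (fun _ => by positivity)).trans (sum_le_sum fun q hq => ?_)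
      simp only [tF]
      rw [Nat.cast_one, div_one]
      have h1 : #(((q.2.1.erase 0) ×ˢ q.2.2).image (af (p := p))) ≤ #q.2.1 * #q.2.2 := by
        refine card_image_le.trans ?_
        rw [card_product]
        exact Nat.mul_le_mul_right _ (card_le_card (erase_subset _ _))
      have h2 : (#(((q.2.1.erase 0) ×ˢ q.2.2).image (af (p := p))) : ℝ) ≤ #q.2.1 * #q.2.2 := by
        exact_mod_cast h1
      calc _ ≤ ((#q.2.1 : ℝ) * #q.2.2) * #q.1 := by gcongr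
        _ = _ := by ring
    · refine (sum_image_le' _ _ _ (fun _ => by positivity)).trans (sum_le_sum fun q hq => ?_)
      simp only [tG]
      rw [Nat.cast_one, div_one]
      have h1 : #((q.2.1 ×ˢ q.2.2).image (ivm (p := p))) ≤ #q.2.1 * #q.2.2 := by
        refine card_image_le.trans ?_
        rw [card_product]
      have h2 : (#((q.2.1 ×ˢ q.2.2).image (ivm (p := p))) : ℝ) ≤ #q.2.1 * #q.2.2 := by
        exact_mod_cast h1
      calc _ ≤ ((#q.2.1 : ℝ) * #q.2.2) * #q.1 := by gcongr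
        _ = _ := by ring
  have hmono : (p : ℝ) ^ (δ / 2) ≤ (p : ℝ) ^ δ := Real.rpow_le_rpow_of_exponent_le hp1 (by linarith)
  have hN := hP p ((le_max_left _ _).trans hp) A' A' FF ?_ ?_ ?_ χ hχ
  · refine q1_split hAne hτ0 hp64 hA'A ?_ hbad2
    refine (sum_of_NB hN).trans ?_
    have h1 : Real.sqrt ((∑ q ∈ FF, (#q.1 : ℝ) * #q.2.1 / q.2.2) * #A') ≤
        (p : ℝ) ^ (τ / 2) * #A := by
      rw [Real.sqrt_le_left (by positivity), mul_pow, ← Real.rpow_natCast ((p : ℝ) ^ (τ / 2)),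
        ← Real.rpow_mul hp0.le]
      push_cast
      rw [div_mul_cancel₀ _ (two_ne_zero)]
      calc _ ≤ ((p : ℝ) ^ τ * #A) * #A := by gcongr
        _ = _ := by ring
    calc _ ≤ (p : ℝ) ^ (-τ₁) * ((p : ℝ) ^ (τ / 2) * #A) * #A := by gcongr
      _ = (p : ℝ) ^ (-τ₁ + τ / 2) * (#A : ℝ) ^ 2 := by
          rw [Real.rpow_add hp0]
          ring
      _ ≤ (p : ℝ) ^ (-(3 * τ)) * (#A : ℝ) ^ 2 := by
          gcongr
          linarith
  · -- the size of `A'`
    have h1 : (p : ℝ) ^ (1 / 2 - τ₁) * 64 ≤ (p : ℝ) ^ (1 / 2 - τ) := by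
      calc (p : ℝ) ^ (1 / 2 - τ₁) * 64 ≤ (p : ℝ) ^ (1 / 2 - τ₁) * (p : ℝ) ^ (τ₁ - τ) := by
            gcongr
            exact hge _ (by linarith)
        _ = _ := by
            rw [← Real.rpow_add hp0]
            congr 1
            ring
    have h2 : (0 : ℝ) ≤ (p : ℝ) ^ (1 / 2 - τ₁) := by positivity
    linarith
  · intro q hq
    rw [hFF, mem_union, mem_image, mem_image] at hq
    rcases hq with ⟨x, hx, rfl⟩ | ⟨x, hx, rfl⟩
    · obtain ⟨h1, h2, h3⟩ := hFG x (mem_union_left _ hx)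
      have h4 : (p : ℝ) ^ (δ / 2) ≤ #(x.2.1.erase 0) := by
        have h5 : (#x.2.1 : ℝ) ≤ #(x.2.1.erase 0) + 1 := by
          have h6 : #x.2.1 ≤ #(x.2.1.erase 0) + 1 := by
            have := pred_card_le_card_erase (s := x.2.1) (a := 0)
            omega
          exact_mod_cast h6
        have h7 : (p : ℝ) ^ (δ / 2) * 64 ≤ (p : ℝ) ^ δ := by
          calc (p : ℝ) ^ (δ / 2) * 64 ≤ (p : ℝ) ^ (δ / 2) * (p : ℝ) ^ (δ / 2) := by
                gcongr
                exact hge _ (by linarith)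
            _ = _ := by
                rw [← Real.rpow_add hp0]
                congr 1
                ring
        have h8 : (64 : ℝ) ≤ (p : ℝ) ^ (δ / 2) := hge _ (by linarith)
        linarith
      have h5 : (p : ℝ) ^ (δ / 2) ≤ #x.2.2 := hmono.trans h3
      have hcard : #((x.2.1.erase 0 ×ˢ x.2.2).image (af (p := p))) = #(x.2.1.erase 0) * #x.2.2 := by
        rw [card_image_of_injective _ af_inj, card_product]
      simp only [tF]
      refine ⟨?_, ?_, ?_, hmono.trans h1, le_rfl, ?_⟩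
      · intro φ hφ
        rw [mem_image] at hφ
        obtain ⟨⟨d, e⟩, hd, rfl⟩ := hφ
        rw [mem_product] at hd
        simpa [af, Matrix.det_fin_two] using ne_of_mem_erase hd.1
      · intro φ hφ ψ hψ c hc
        rw [mem_image] at hφ hψ
        obtain ⟨d, -, rfl⟩ := hφ
        obtain ⟨e, -, rfl⟩ := hψ
        have h1 := congrFun (congrFun hc 1) 1
        simp [af] at h1
        rw [← h1, one_smul] at hc
        exact hc
      · rw [hcard]
        push_cast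
        have h6 : (1 : ℝ) ≤ (p : ℝ) ^ (δ / 2) := by linarith [hge (δ / 2) (by linarith)]
        calc (p : ℝ) ^ (δ / 2) = (p : ℝ) ^ (δ / 2) * 1 := by rw [mul_one]
          _ ≤ #(x.2.1.erase 0) * #x.2.2 := by
              gcongr
              exact h6.trans h5
      · intro r s hs hc
        exfalso
        rw [hcard] at hc
        push_cast at hc
        exact void h4 h5 (cnt_af (notMem_erase _ _) hs) hc
    · obtain ⟨h1, h2, h3⟩ := hFG x (mem_union_right _ hx)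
      have h4 : (p : ℝ) ^ (δ / 2) ≤ #x.2.1 := hmono.trans h2
      have h5 : (p : ℝ) ^ (δ / 2) ≤ #x.2.2 := hmono.trans h3
      have hcard : #((x.2.1 ×ˢ x.2.2).image (ivm (p := p))) = #x.2.1 * #x.2.2 := by
        rw [card_image_of_injective _ ivm_inj, card_product]
      simp only [tG]
      refine ⟨?_, ?_, ?_, hmono.trans h1, le_rfl, ?_⟩
      · intro φ hφ
        rw [mem_image] at hφ
        obtain ⟨⟨d, e⟩, hd, rfl⟩ := hφ
        simp [ivm, Matrix.det_fin_two]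
      · intro φ hφ ψ hψ c hc
        rw [mem_image] at hφ hψ
        obtain ⟨d, -, rfl⟩ := hφ
        obtain ⟨e, -, rfl⟩ := hψ
        have h1 := congrFun (congrFun hc 1) 0
        simp [ivm] at h1
        rw [← h1, one_smul] at hc
        exact hc
      · rw [hcard]
        push_cast
        have h6 : (1 : ℝ) ≤ (p : ℝ) ^ (δ / 2) := by linarith [hge (δ / 2) (by linarith)]
        calc (p : ℝ) ^ (δ / 2) = (p : ℝ) ^ (δ / 2) * 1 := by rw [mul_one]
          _ ≤ #x.2.1 * #x.2.2 := by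
              gcongr
              exact h6.trans h5
      · intro r s hs hc
        exfalso
        rw [hcard] at hc
        push_cast at hc
        exact void h4 h5 (cnt_iv hs) hc
  · intro a ha
    rw [hA', mem_filter] at ha
    rcases ha.2 with ⟨q, hq, c, hc, d, hd, e, he, h0, rfl⟩ | ⟨q, hq, c, hc, d, hd, e, he, h0, rfl⟩
    · refine ⟨tF q, mem_union_left _ (mem_image_of_mem _ hq), ?_⟩
      simp only [tF]
      rw [Nat.one_le_iff_ne_zero, ← Nat.pos_iff_ne_zero, rp, card_pos]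
      refine ⟨(af (d, e), c), mem_filter.2 ⟨mem_product.2 ⟨mem_image_of_mem _
        (mem_product.2 ⟨mem_erase.2 ⟨h0, hd⟩, he⟩), hc⟩, ?_, ?_⟩⟩
      · simp [af, den]
      · simp [af, mob, mul_comm]
    · refine ⟨tG q, mem_union_right _ (mem_image_of_mem _ hq), ?_⟩
      simp only [tG]
      rw [Nat.one_le_iff_ne_zero, ← Nat.pos_iff_ne_zero, rp, card_pos]
      refine ⟨(ivm (d, e), c), mem_filter.2 ⟨mem_product.2 ⟨mem_image_of_mem _
        (mem_product.2 ⟨hd, he⟩), hc⟩, ?_, ?_⟩⟩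
      · simpa [ivm, den] using h0
      · simp only [ivm, mob, Matrix.cons_val', Matrix.cons_val_zero, Matrix.cons_val_one,
          Matrix.of_apply, Matrix.cons_val_fin_one]
        rw [one_mul]
        have h1 : (c + d) * (c + d)⁻¹ = 1 := mul_inv_cancel₀ h0
        linear_combination e * h1

end MPcb27.CO
end
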