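import Pool.Agent.Lib.MP_cb27ba_nt.PH.Spec
import Pool.Agent.Lib.MP_cb27ba_nt.RU.Spec4

/-!
# MP_cb27ba_nt, corollaries in the words of Q1: exact statements

Corollaries of the four theorems of the hand-ins (for their relation lines). In all of them the
conclusion is the inequality of Q1 with the exponent `2 - τ`.
-/

set_option autoImplicit false

namespace MPcb27.CO

open Finset Matrix
open scoped Pointwise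
open MPcb27.TU

/-- the inequality of Q1 for `A`, with the exponent `2 - τ` -/
def Q1At {p : ℕ} [Fact p.Prime] (A : Finset (ZMod p)) (τ : ℝ) : Prop :=
  ∀ χ : DirichletCharacter ℂ p, χ ≠ 1 → ‖∑ a ∈ A, ∑ b ∈ A, χ (a - b)‖ < (#A : ℝ) ^ (2 - τ)

/-- ME1 (sumsets), from `PH.FinalPH`: `Φ` = the translations by `D`. Two different translations with
`φ r = s φ` make `s` commute with a translation, then all `t` commuting with `s` are translations. -/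
def SpecME1 : Prop :=
  ∀ δ : ℝ, 0 < δ → ∃ τ : ℝ, 0 < τ ∧ ∃ P : ℕ, ∀ (p : ℕ) [Fact p.Prime], P ≤ p →
    ∀ A C D : Finset (ZMod p), (p : ℝ) ^ (1 / 2 - τ) ≤ (#A : ℝ) → (p : ℝ) ^ δ ≤ (#C : ℝ) →
      (p : ℝ) ^ δ ≤ (#D : ℝ) → A ⊆ C + D → (#C : ℝ) * #D ≤ (p : ℝ) ^ τ * #A →
      (p : ℝ) ^ δ * A.addEnergy A ≤ (#A : ℝ) ^ 3 → Q1At A τ

/-- ME2 (product sets), from `PH.FinalPH`: `Φ` = the dilations by `D \ {0}`. -/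
def SpecME2 : Prop :=
  ∀ δ : ℝ, 0 < δ → ∃ τ : ℝ, 0 < τ ∧ ∃ P : ℕ, ∀ (p : ℕ) [Fact p.Prime], P ≤ p →
    ∀ A C D : Finset (ZMod p), (p : ℝ) ^ (1 / 2 - τ) ≤ (#A : ℝ) → (p : ℝ) ^ δ ≤ (#C : ℝ) →
      (p : ℝ) ^ δ ≤ (#D : ℝ) → A ⊆ C * D → (#C : ℝ) * #D ≤ (p : ℝ) ^ τ * #A →
      (p : ℝ) ^ δ * A.mulEnergy A ≤ (#A : ℝ) ^ 3 → Q1At A τ

/-- ME3, from `PH.FinalPH`: sets covered by sets `C * D + E` and `(C + D)⁻¹ + E`. At most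
`max #D #E` of the maps `c ↦ c d + e` (`c ↦ 1 / (c + d) + e`) satisfy `φ r = s φ`, `s` not scalar. The
elements with `d = 0` or `c + d = 0` only are in the sets `E` and so negligible. -/
def SpecME3 : Prop :=
  ∀ δ : ℝ, 0 < δ → ∃ τ : ℝ, 0 < τ ∧ ∃ P : ℕ, ∀ (p : ℕ) [Fact p.Prime], P ≤ p →
    ∀ (A : Finset (ZMod p))
      (F G : Finset (Finset (ZMod p) × Finset (ZMod p) × Finset (ZMod p))),
      (p : ℝ) ^ (1 / 2 - τ) ≤ (#A : ℝ) →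
      (∀ q ∈ F ∪ G, (p : ℝ) ^ δ ≤ (#q.1 : ℝ) ∧ (p : ℝ) ^ δ ≤ (#q.2.1 : ℝ) ∧
        (p : ℝ) ^ δ ≤ (#q.2.2 : ℝ)) →
      A ⊆ (F.biUnion fun q => q.1 * q.2.1 + q.2.2) ∪ (G.biUnion fun q => (q.1 + q.2.1)⁻¹ + q.2.2) →
      ∑ q ∈ F, (#q.1 : ℝ) * #q.2.1 * #q.2.2 + ∑ q ∈ G, (#q.1 : ℝ) * #q.2.1 * #q.2.2 ≤
        (p : ℝ) ^ τ * #A →
      Q1At A τ

/-- EN (translations in `PH.theoremEN2`): `F` = one triple, `Φ` = the translations by `D`;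
`#{z : z + d ∈ A, z + d' ∈ A}` is the number of representations of `d - d'` as a difference in `A`, the
sum of its square over `d` is at most the energy. Here `A = B`. -/
def SpecEN2 : Prop :=
  ∀ δ : ℝ, 0 < δ → ∃ τ : ℝ, 0 < τ ∧ ∃ P : ℕ, ∀ (p : ℕ) [Fact p.Prime], P ≤ p →
    ∀ A D : Finset (ZMod p), ∀ (C : Finset (ZMod p)) (m K : ℕ), (p : ℝ) ^ δ ≤ (#A : ℝ) →
      (p : ℝ) ^ δ ≤ (#C : ℝ) → 1 ≤ m →
      (K = 1 ∨ (K = #C ∧ (#C : ℝ) ≤ (p : ℝ) ^ (1 / 2 - δ) ∧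
        ∃ (c g : ZMod p) (n : ℕ), C = (range n).image fun k : ℕ => c + (k : ZMod p) * g)) →
      (p : ℝ) ^ (1 + δ) * A.addEnergy A ≤ K * #D * (#A : ℝ) ^ 4 →
      (∀ a ∈ A, m ≤ #((D ×ˢ C).filter fun x => x.1 + x.2 = a)) →
      ∀ χ : DirichletCharacter ℂ p, χ ≠ 1 →
        NB χ A A ((p : ℝ) ^ (-τ) * Real.sqrt ((#D : ℝ) * #C / m * #A))

/-- EC1: from `SpecEN2`. `A ⊆ C + D`, `C` ANY set with at least `p ^ δ` elements. -/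
def SpecEC1 : Prop :=
  ∀ δ : ℝ, 0 < δ → ∃ τ : ℝ, 0 < τ ∧ ∃ P : ℕ, ∀ (p : ℕ) [Fact p.Prime], P ≤ p →
    ∀ A C D : Finset (ZMod p), A.Nonempty → (p : ℝ) ^ δ ≤ (#C : ℝ) → A ⊆ C + D →
      (#C : ℝ) * #D ≤ (p : ℝ) ^ τ * #A → (p : ℝ) ^ (1 + δ) * A.addEnergy A ≤ #D * (#A : ℝ) ^ 4 →
      Q1At A τ

/-- EC2: from `SpecEN2`. `A ⊆ L + D`, `L` an arithmetic progression with `n ≥ p ^ δ` elements. Take a
short progression `L'` of `⌈p ^ δ₁⌉` elements, `D' = D + {j n' g : j ≤ n / n'}`, `#L' #D' ≤ 2 n #D`. -/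
def SpecEC2 : Prop :=
  ∀ δ : ℝ, 0 < δ → ∃ τ : ℝ, 0 < τ ∧ ∃ P : ℕ, ∀ (p : ℕ) [Fact p.Prime], P ≤ p →
    ∀ (A L D : Finset (ZMod p)) (c g : ZMod p) (n : ℕ), A.Nonempty → g ≠ 0 → n ≤ p →
      (p : ℝ) ^ δ ≤ (n : ℝ) → L = (range n).image (fun k : ℕ => c + (k : ZMod p) * g) → A ⊆ L + D →
      (n : ℝ) * #D ≤ (p : ℝ) ^ τ * #A → (p : ℝ) ^ (1 + δ) * A.addEnergy A ≤ (#A : ℝ) ^ 5 →
      Q1At A τ

/-- EC3: from `SpecEN2`. `A` has few translates by a progression `L` with `n ≥ p ^ δ` elements. Take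
`L' ⊆ L` of `n' = min n ⌊p ^ (1/2 - δ₁)⌋` elements, `C = -L'`, `D = A + L'`, `m = n'`; if `n' < n` then
`#A ≥ p ^ (-τ) n` is so large that `addEnergy ≤ #A ^ 3` is enough. -/
def SpecEC3 : Prop :=
  ∀ δ : ℝ, 0 < δ → ∃ τ : ℝ, 0 < τ ∧ ∃ P : ℕ, ∀ (p : ℕ) [Fact p.Prime], P ≤ p →
    ∀ (A L : Finset (ZMod p)) (c g : ZMod p) (n : ℕ), g ≠ 0 → n ≤ p → (p : ℝ) ^ δ ≤ (n : ℝ) →
      L = (range n).image (fun k : ℕ => c + (k : ZMod p) * g) → A.Nonempty →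
      (#(A + L) : ℝ) ≤ (p : ℝ) ^ τ * #A →
      (p : ℝ) ^ (1 + δ) * A.addEnergy A ≤ n * (#A : ℝ) ^ 5 → Q1At A τ

/-- DU1: from `TU.FinalUK`. -/
def SpecDU1 : Prop :=
  ∀ K δ : ℝ, 0 < δ → ∃ τ : ℝ, 0 < τ ∧ ∃ P : ℕ, ∀ (p : ℕ) [Fact p.Prime], P ≤ p →
    ∀ (A : Finset (ZMod p)) (F : Finset (Finset (ZMod p))), A.Nonempty →
      (∀ X ∈ F, (p : ℝ) ^ (1 / 4 + δ) < (#X : ℝ) ∧ (#(X + X) : ℝ) ≤ K * #X) →
      A ⊆ F.biUnion id → ∑ X ∈ F, (#X : ℝ) ≤ (p : ℝ) ^ τ * #A → Q1At A τ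

/-- DU2: from `TU.FinalUK`, the covering lemma of Ruzsa and Plünnecke's inequality: `A` is covered by
`#(A + X) / #X` translates of `X - X`. -/
def SpecDU2 : Prop :=
  ∀ K δ : ℝ, 0 < δ → ∃ τ : ℝ, 0 < τ ∧ ∃ P : ℕ, ∀ (p : ℕ) [Fact p.Prime], P ≤ p →
    ∀ A X : Finset (ZMod p), A.Nonempty → (p : ℝ) ^ (1 / 4 + δ) < (#X : ℝ) →
      (#(X + X) : ℝ) ≤ K * #X → (#(A + X) : ℝ) ≤ (p : ℝ) ^ τ * #A →
      ∀ B ⊆ A, (#A : ℝ) ≤ (p : ℝ) ^ τ * #B → Q1At B τ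

/-- DU3: from `TU.FinalUK`. A counterexample has a large part without any such `X`. -/
def SpecDU3 : Prop :=
  ∀ K δ : ℝ, 0 < δ → ∀ σ : ℝ, 0 < σ → ∃ τ : ℝ, 0 < τ ∧ ∃ P : ℕ, ∀ (p : ℕ) [Fact p.Prime], P ≤ p →
    ∀ A : Finset (ZMod p), A.Nonempty → ¬ Q1At A τ →
      ∃ A' ⊆ A, (#A : ℝ) ≤ (p : ℝ) ^ σ * #A' ∧
        ∀ X ⊆ A', (p : ℝ) ^ (1 / 4 + δ) < (#X : ℝ) → K * #X < (#(X + X) : ℝ)

open scoped Classical in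
/-- AC1: from `RU2.FinalOP4`. `H` is a subgroup of index at least `p ^ ε`; if many differences of
elements of `A` are in `H`, then `A` is small. Proof: `t = H.index` characters are trivial on `H`, the
sum of their `S_χ(A)` is `t` times the number of pairs, so at least `t p^(-τ) / 2` of them are
exceptional (`Δ = p^(-2τ)`), and `t #H = p - 1`. -/
def SpecAC1 : Prop :=
  ∀ ε : ℝ, 0 < ε → ∃ τ : ℝ, 0 < τ ∧ ∃ P : ℕ, ∀ (p : ℕ) [Fact p.Prime], P ≤ p →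
    ∀ (A : Finset (ZMod p)) (H : Subgroup (ZMod p)ˣ), (p : ℝ) ^ ε ≤ (H.index : ℝ) →
      (#A : ℝ) ^ 2 ≤ (p : ℝ) ^ τ *
        #((A ×ˢ A).filter fun x => ∃ h ∈ H, (h : ZMod p) = x.1 - x.2) →
      (#A : ℝ) ^ 2 ≤ (p : ℝ) ^ ε * (Nat.card H : ℝ)

end MPcb27.CO
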